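import Mathlib

/-!
# [H76 TC Defs] Irreducible complex characters, covers of primes

Basic definitions for MP_a05331_al: `Irr G` (irreducible finite-dimensional complex
representations), their degrees, the set of primes dividing a degree, and covers.
-/

set_option autoImplicit false

namespace Pool.Agent.H76.TC

open Module

/-- A finite-dimensional irreducible complex representation of `G`. -/
structure Irr (G : Type) [Group G] where
  V : Type
  [acg : AddCommGroup V]
  [mod : Module ℂ V]
  [fd : FiniteDimensional ℂ V]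
  ρ : Representation ℂ G V
  irr : ρ.IsIrreducible

attribute [instance] Irr.acg Irr.mod Irr.fd

/-- The degree `χ(1)` of the irreducible character. -/
noncomputable def Irr.degree {G : Type} [Group G] (χ : Irr G) : ℕ := finrank ℂ χ.V

/-- `p` is a prime dividing the degree of some irreducible character of `G`. -/
def InRho (G : Type) [Group G] (p : ℕ) : Prop := p.Prime ∧ ∃ χ : Irr G, p ∣ χ.degree

/-- `G` has a normal abelian Sylow `p`-subgroup. -/
def NormalAbelianSylow (G : Type) [Group G] (p : ℕ) : Prop :=
  ∃ P : Sylow p G, (P : Subgroup G).Normal ∧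
    ∀ x ∈ (P : Subgroup G), ∀ y ∈ (P : Subgroup G), x * y = y * x

/-- `m` irreducible characters of `G` cover the primes in `S`: each prime of `S` divides the
degree of one of them. -/
def Covered (G : Type) [Group G] (S : ℕ → Prop) (m : ℕ) : Prop :=
  ∃ χ : Fin m → Irr G, ∀ p : ℕ, p.Prime → S p → ∃ i, p ∣ (χ i).degree

section basic

variable {G : Type} [Group G]

/-- A nonzero stable subspace of an irreducible representation is everything. -/
theorem Irr.eq_top (χ : Irr G) (W : Submodule ℂ χ.V) (hW : ∀ g : G, ∀ v ∈ W, χ.ρ g v ∈ W)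
    (hne : ∃ v ∈ W, v ≠ 0) : W = ⊤ := by
  have := χ.irr
  let U : Subrepresentation χ.ρ := ⟨W, fun g v hv => hW g v hv⟩
  rcases eq_bot_or_eq_top U with h | h
  · exfalso
    obtain ⟨v, hv, hv0⟩ := hne
    apply hv0
    have h1 : v ∈ U := hv
    rw [h] at h1
    exact (Submodule.mem_bot ℂ).mp h1
  · exact congrArg Subrepresentation.toSubmodule h

/-- Converse: a representation on a nontrivial space without proper stable subspaces. -/
theorem isIrreducible_of {V : Type} [AddCommGroup V] [Module ℂ V] (ρ : Representation ℂ G V)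
    (h0 : ∃ v : V, v ≠ 0)
    (h : ∀ W : Submodule ℂ V, (∀ g : G, ∀ v ∈ W, ρ g v ∈ W) → (∃ v ∈ W, v ≠ 0) → W = ⊤) :
    ρ.IsIrreducible := by
  obtain ⟨v0, hv0⟩ := h0
  have hnt : Nontrivial (Subrepresentation ρ) := by
    refine ⟨⊥, ⊤, fun hbt => hv0 ?_⟩
    have : v0 ∈ (⊤ : Subrepresentation ρ) := Submodule.mem_top (R := ℂ)
    rw [← hbt] at this
    exact (Submodule.mem_bot ℂ).mp this
  refine { eq_bot_or_eq_top := fun U => ?_ }
  by_cases hU : ∃ v ∈ U.toSubmodule, v ≠ 0
  · right
    apply Subrepresentation.toSubmodule_injective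
    exact h U.toSubmodule (fun g v hv => U.apply_mem_toSubmodule g hv) hU
  · left
    push Not at hU
    apply Subrepresentation.toSubmodule_injective
    show U.toSubmodule = ⊥
    rw [eq_bot_iff]
    intro v hv
    exact (Submodule.mem_bot ℂ).mpr (hU v hv)

/-- An irreducible representation is nonzero. -/
theorem Irr.exists_ne_zero (χ : Irr G) : ∃ v : χ.V, v ≠ 0 := by
  have := χ.irr
  by_contra h
  push Not at h
  have : (⊥ : Subrepresentation χ.ρ) = ⊤ := by
    apply Subrepresentation.toSubmodule_injective
    show (⊥ : Submodule ℂ χ.V) = ⊤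
    rw [eq_comm, eq_bot_iff]
    intro v _
    exact (Submodule.mem_bot ℂ).mpr (h v)
  exact bot_ne_top this

/-- If a normal subgroup fixes a nonzero vector it acts trivially. -/
theorem Irr.trivial_of_fixed (χ : Irr G) (D : Subgroup G) [D.Normal] (v : χ.V) (hv : v ≠ 0)
    (h : ∀ d ∈ D, χ.ρ d v = v) : ∀ d ∈ D, ∀ w : χ.V, χ.ρ d w = w := by
  let W : Submodule ℂ χ.V :=
    { carrier := {w | ∀ d ∈ D, χ.ρ d w = w}
      add_mem' := by
        intro a b ha hb d hd
        rw [map_add, ha d hd, hb d hd]
      zero_mem' := by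
        intro d _
        exact map_zero _
      smul_mem' := by
        intro c a ha d hd
        rw [map_smul, ha d hd] }
  have hW : W = ⊤ := by
    apply χ.eq_top W
    · intro g w hw d hd
      have h1 : g⁻¹ * d * g ∈ D := by
        have := Subgroup.Normal.conj_mem (inferInstance : D.Normal) d hd g⁻¹
        simpa using this
      have h2 := hw _ h1
      have h3 : χ.ρ d (χ.ρ g w) = χ.ρ g (χ.ρ (g⁻¹ * d * g) w) := by
        rw [← Module.End.mul_apply, ← Module.End.mul_apply, ← map_mul, ← map_mul]
        congr 2
        group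
      rw [h3, h2]
    · exact ⟨v, h, hv⟩
  intro d hd w
  have : w ∈ W := hW ▸ Submodule.mem_top
  exact this d hd

end basic

end Pool.Agent.H76.TC
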