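import Pool.Agent.H76.TC.Pg

/-!
# [H76 TC Ex] Irreducible representations over a given weight; Maschke

For every subgroup `N` of the finite group `G` and every `lam : N →* ℂˣ` there is an irreducible
representation of `G` with a nonzero vector on which `N` acts by `lam`.
-/

set_option autoImplicit false

namespace Pool.Agent.H76.TC

open Module

/-- Maschke: a stable complement. -/
theorem exists_compl {G : Type} [Group G] [Finite G] {V : Type} [AddCommGroup V] [Module ℂ V]
    (ρ : Representation ℂ G V) (W : Submodule ℂ V) (hW : ∀ g : G, ∀ v ∈ W, ρ g v ∈ W) :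
    ∃ W' : Submodule ℂ V, (∀ g : G, ∀ v ∈ W', ρ g v ∈ W') ∧ IsCompl W W' := by
  have : NeZero (Nat.card G : ℂ) := ⟨Nat.cast_ne_zero.mpr Nat.card_pos.ne'⟩
  have : Representation.IsSemisimpleRepresentation ρ := inferInstance
  let U : Subrepresentation ρ := ⟨W, fun g v hv => hW g v hv⟩
  obtain ⟨U', hU'⟩ := ComplementedLattice.exists_isCompl U
  refine ⟨U'.toSubmodule, fun g v hv => U'.apply_mem_toSubmodule g hv, ?_⟩
  constructor
  · rw [disjoint_iff]
    have h := disjoint_iff.mp hU'.disjoint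
    exact congrArg Subrepresentation.toSubmodule h
  · rw [codisjoint_iff]
    have h := codisjoint_iff.mp hU'.codisjoint
    exact congrArg Subrepresentation.toSubmodule h

theorem exists_irr_aux {G : Type} [Group G] [Finite G] (N : Subgroup G) (lam : N →* ℂˣ) :
    ∀ n : ℕ, ∀ (V : Type) [AddCommGroup V] [Module ℂ V] [FiniteDimensional ℂ V]
      (ρ : Representation ℂ G V), finrank ℂ V = n → (∃ v ∈ wt ρ N lam, v ≠ 0) →
      ∃ χ : Irr G, ∃ v ∈ wt χ.ρ N lam, v ≠ 0 := by
  intro n
  induction n using Nat.strong_induction_on with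
  | _ n ih =>
  intro V _ _ _ ρ hn hv
  obtain ⟨v, hv, hv0⟩ := hv
  by_cases hirr : ∀ W : Submodule ℂ V, (∀ g : G, ∀ v ∈ W, ρ g v ∈ W) → (∃ v ∈ W, v ≠ 0) → W = ⊤
  · exact ⟨⟨V, ρ, isIrreducible_of ρ ⟨v, hv0⟩ hirr⟩, v, hv, hv0⟩
  · push Not at hirr
    obtain ⟨W, hW, ⟨w0, hw0, hw0'⟩, hWtop⟩ := hirr
    obtain ⟨W', hW', hc⟩ := exists_compl ρ W hW
    have hWlt : finrank ℂ W < n := by
      rw [← hn]
      exact Submodule.finrank_lt hWtop
    have hW'top : W' ≠ ⊤ := by
      intro h
      apply hw0'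
      have h1 := disjoint_iff.mp hc.disjoint
      rw [h, inf_top_eq] at h1
      rw [h1] at hw0
      exact (Submodule.mem_bot ℂ).mp hw0
    have hW'lt : finrank ℂ W' < n := by
      rw [← hn]
      exact Submodule.finrank_lt hW'top
    have hvtop : v ∈ W ⊔ W' := by
      rw [codisjoint_iff.mp hc.codisjoint]
      exact Submodule.mem_top
    obtain ⟨a, ha, b, hb, hab⟩ := Submodule.mem_sup.mp hvtop
    -- both parts are weight vectors
    have hwab : ∀ n : N, ρ (n : G) a = ((lam n : ℂˣ) : ℂ) • a ∧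
        ρ (n : G) b = ((lam n : ℂˣ) : ℂ) • b := by
      intro n
      have h1 := hv n
      rw [← hab, map_add, smul_add] at h1
      have h2 : ρ (n : G) a - ((lam n : ℂˣ) : ℂ) • a = ((lam n : ℂˣ) : ℂ) • b - ρ (n : G) b := by
        rw [sub_eq_sub_iff_add_eq_add, h1]
        abel
      have h3 : ρ (n : G) a - ((lam n : ℂˣ) : ℂ) • a ∈ W :=
        W.sub_mem (hW _ _ ha) (W.smul_mem _ ha)
      have h4 : ρ (n : G) a - ((lam n : ℂˣ) : ℂ) • a ∈ W' := by
        rw [h2]
        exact W'.sub_mem (W'.smul_mem _ hb) (hW' _ _ hb)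
      have h5 : ρ (n : G) a - ((lam n : ℂˣ) : ℂ) • a = 0 :=
        Submodule.disjoint_def.mp hc.disjoint _ h3 h4
      refine ⟨sub_eq_zero.mp h5, ?_⟩
      rw [h5] at h2
      exact (sub_eq_zero.mp h2.symm).symm
    by_cases ha0 : a = 0
    · have hb0 : b ≠ 0 := by
        intro h
        apply hv0
        rw [← hab, ha0, h, add_zero]
      apply ih _ hW'lt W' (restr ρ W' hW') rfl
      exact ⟨⟨b, hb⟩, fun n => Subtype.ext (hwab n).2, fun h => hb0 (congrArg Subtype.val h)⟩
    · apply ih _ hWlt W (restr ρ W hW) rfl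
      exact ⟨⟨a, ha⟩, fun n => Subtype.ext (hwab n).1, fun h => ha0 (congrArg Subtype.val h)⟩

/-- the right regular representation -/
noncomputable def rreg (G : Type) [Group G] : Representation ℂ G (G → ℂ) where
  toFun g := LinearMap.funLeft ℂ ℂ (fun x => x * g)
  map_one' := by
    ext f x
    simp [LinearMap.funLeft]
  map_mul' a b := by
    ext f x
    simp [LinearMap.funLeft, mul_assoc]

theorem rreg_apply (G : Type) [Group G] (g : G) (f : G → ℂ) (x : G) :
    rreg G g f x = f (x * g) := rfl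

/-- Every weight of every subgroup occurs in an irreducible representation. -/
theorem exists_irr_over {G : Type} [Group G] [Finite G] (N : Subgroup G) (lam : N →* ℂˣ) :
    ∃ χ : Irr G, ∃ v ∈ wt χ.ρ N lam, v ≠ 0 := by
  classical
  have : Fintype G := Fintype.ofFinite G
  apply exists_irr_aux N lam _ (G → ℂ) (rreg G) rfl
  refine ⟨fun x => if h : x ∈ N then ((lam ⟨x, h⟩ : ℂˣ) : ℂ) else 0, ?_, ?_⟩
  · intro n
    ext x
    rw [rreg_apply, Pi.smul_apply, smul_eq_mul]
    by_cases hx : x ∈ N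
    · have hxn : x * n ∈ N := mul_mem hx n.2
      rw [dif_pos hxn, dif_pos hx, ← Units.val_mul, mul_comm (lam n), ← map_mul]
      rfl
    · have hxn : x * n ∉ N := by
        intro h
        apply hx
        have := mul_mem h (inv_mem n.2)
        simpa using this
      rw [dif_neg hxn, dif_neg hx, mul_zero]
  · intro h
    have h1 := congrFun h 1
    rw [dif_pos (one_mem N)] at h1
    have h2 : lam ⟨1, one_mem N⟩ = 1 := map_one lam
    rw [h2] at h1
    simp at h1

/-- If `D ≤ N` acts trivially and `lam` occurs in `χ` then `lam` is trivial on `D`. -/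
theorem lam_trivial {G : Type} [Group G] (χ : Irr G) (N : Subgroup G) (lam : N →* ℂˣ)
    (v : χ.V) (hv : v ∈ wt χ.ρ N lam) (hv0 : v ≠ 0) (d : G) (hd : d ∈ N)
    (h : ∀ w : χ.V, χ.ρ d w = w) : lam ⟨d, hd⟩ = 1 := by
  have h1 : χ.ρ d v = ((lam ⟨d, hd⟩ : ℂˣ) : ℂ) • v := hv ⟨d, hd⟩
  rw [h] at h1
  have h2 : (((lam ⟨d, hd⟩ : ℂˣ) : ℂ) - 1) • v = 0 := by
    rw [sub_smul, one_smul, ← h1, sub_self]
  rcases smul_eq_zero.mp h2 with h3 | h3
  · exact Units.ext (sub_eq_zero.mp h3)
  · exact absurd h3 hv0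

end Pool.Agent.H76.TC
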