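import Pool.Agent.H76.TC.Frob

/-!
# [H76 TC Ito] The easy half of Ito's theorem

If `G` has a normal abelian Sylow `p`-subgroup then `p` divides no irreducible degree.
-/

set_option autoImplicit false

namespace Pool.Agent.H76.TC

open Module

theorem finrank_iSup_le {ι V : Type} [Fintype ι] [AddCommGroup V] [Module ℂ V]
    [FiniteDimensional ℂ V] (W : ι → Submodule ℂ V) :
    finrank ℂ (⨆ i, W i : Submodule ℂ V) ≤ ∑ i, finrank ℂ (W i) := by
  classical
  rw [← Finset.sup_univ_eq_iSup]
  induction (Finset.univ : Finset ι) using Finset.induction_on with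
  | empty => simp
  | insert i s hi ih =>
    rw [Finset.sup_insert, Finset.sum_insert hi]
    exact le_trans (Submodule.finrank_add_le_finrank_add_finrank _ _) (Nat.add_le_add_left ih _)

theorem Irr.not_dvd_of_normal_abelian {G : Type} [Group G] [Finite G] (χ : Irr G) (p : ℕ)
    [hp : Fact p.Prime] (P : Sylow p G) [hPn : (P : Subgroup G).Normal]
    (hPc : ∀ x ∈ (P : Subgroup G), ∀ y ∈ (P : Subgroup G), x * y = y * x) : ¬ p ∣ χ.degree := by
  classical
  set N : Subgroup G := (P : Subgroup G) with hNdef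
  -- a complement
  have hcop : Nat.Coprime (Nat.card N) N.index := P.card_coprime_index
  obtain ⟨K, hK⟩ := Subgroup.exists_right_complement'_of_coprime hcop
  have hKcard : N.index = Nat.card K := hK.symm.index_eq_card
  have hpK : ¬ p ∣ Nat.card K := by
    rw [← hKcard]
    exact P.not_dvd_index
  have hsup : N ⊔ K = ⊤ := hK.sup_eq_top
  -- a weight
  have : Fintype (N →* ℂˣ) := Fintype.ofFinite _
  obtain ⟨v0, hv0⟩ := χ.exists_ne_zero
  have hnt : Nontrivial χ.V := ⟨v0, 0, hv0⟩
  have hsum := sum_finrank_wt χ.ρ N hPc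
  obtain ⟨lam, hlam⟩ : ∃ lam : N →* ℂˣ, finrank ℂ (wt χ.ρ N lam) ≠ 0 := by
    by_contra hcon
    push Not at hcon
    have h1 : finrank ℂ χ.V = 0 := by
      rw [← hsum]
      exact Finset.sum_eq_zero fun lam _ => hcon lam
    exact (Module.finrank_pos (R := ℂ) (M := χ.V)).ne' h1
  -- the stabilizer in K
  let T : Subgroup K :=
    { carrier := {k | conjW N (k : G) lam = lam}
      mul_mem' := by
        intro a b ha hb
        show conjW N ((a * b : K) : G) lam = lam
        rw [Subgroup.coe_mul, conjW_mul, hb, ha]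
      one_mem' := conjW_one N lam
      inv_mem' := by
        intro a ha
        show conjW N ((a⁻¹ : K) : G) lam = lam
        have ha' : conjW N (a : G) lam = lam := ha
        conv_lhs => rw [← ha', Subgroup.coe_inv]
        rw [← conjW_mul, inv_mul_cancel, conjW_one] }
  have hTmem : ∀ k : K, k ∈ T ↔ conjW N (k : G) lam = lam := fun k => Iff.rfl
  have : Fintype (K ⧸ T) := Fintype.ofFinite _
  set W0 := wt χ.ρ N lam with hW0
  -- the main estimate
  have main : ∀ U : Submodule ℂ χ.V, U ≤ W0 → (∀ t ∈ T, ∀ v ∈ U, χ.ρ ((t : K) : G) v ∈ U) →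
      (∃ v ∈ U, v ≠ 0) → finrank ℂ χ.V ≤ Nat.card (K ⧸ T) * finrank ℂ U := by
    intro U hU hTU hne
    let X : Submodule ℂ χ.V := ⨆ q : K ⧸ T, U.map (χ.ρ ((q.out : K) : G))
    have hXtop : X = ⊤ := by
      apply χ.eq_top X
      · -- stable
        have hgen : ∀ g : G, (∀ q : K ⧸ T, ∀ u ∈ U, χ.ρ g (χ.ρ ((q.out : K) : G) u) ∈ X) →
            ∀ v ∈ X, χ.ρ g v ∈ X := by
          intro g hg v hv
          have : X ≤ X.comap (χ.ρ g) := by
            apply iSup_le
            intro q
            rintro _ ⟨u, hu, rfl⟩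
            exact hg q u hu
          exact this hv
        have hKst : ∀ k : K, ∀ v ∈ X, χ.ρ (k : G) v ∈ X := by
          intro k
          apply hgen
          intro q u hu
          let q' : K ⧸ T := ((k * q.out : K) : K ⧸ T)
          have ht : (q'.out)⁻¹ * (k * q.out) ∈ T := by
            rw [← QuotientGroup.eq]
            exact Quotient.out_eq q'
          have e1 : χ.ρ (k : G) (χ.ρ ((q.out : K) : G) u) =
              χ.ρ ((q'.out : K) : G) (χ.ρ (((q'.out)⁻¹ * (k * q.out) : K) : G) u) := by
            rw [← Module.End.mul_apply, ← map_mul, ← Module.End.mul_apply, ← map_mul]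
            congr 2
            push_cast
            group
          rw [e1]
          apply Submodule.mem_iSup_of_mem q'
          exact ⟨_, hTU _ ht u hu, rfl⟩
        have hNst : ∀ n ∈ N, ∀ v ∈ X, χ.ρ n v ∈ X := by
          intro n hn
          apply hgen
          intro q u hu
          have h1 := map_wt χ.ρ N ((q.out : K) : G) lam (hU hu)
          have h2 : χ.ρ n (χ.ρ ((q.out : K) : G) u) =
            ((conjW N ((q.out : K) : G) lam ⟨n, hn⟩ : ℂˣ) : ℂ) • χ.ρ ((q.out : K) : G) u :=
            h1 ⟨n, hn⟩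
          rw [h2]
          apply Submodule.smul_mem
          exact Submodule.mem_iSup_of_mem q ⟨u, hu, rfl⟩
        intro g v hv
        have hg : g ∈ N ⊔ K := hsup ▸ Subgroup.mem_top g
        obtain ⟨n, hn, k, hk, rfl⟩ := Subgroup.mem_sup_of_normal_left.mp hg
        rw [map_mul, Module.End.mul_apply]
        exact hNst n hn _ (hKst ⟨k, hk⟩ v hv)
      · obtain ⟨v, hv, hv0⟩ := hne
        let q : K ⧸ T := ((1 : K) : K ⧸ T)
        refine ⟨χ.ρ ((q.out : K) : G) v, Submodule.mem_iSup_of_mem q ⟨v, hv, rfl⟩, ?_⟩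
        intro h
        apply hv0
        apply rho_injective χ.ρ ((q.out : K) : G)
        rw [h, map_zero]
    calc finrank ℂ χ.V = finrank ℂ X := by rw [hXtop, finrank_top]
      _ ≤ ∑ q : K ⧸ T, finrank ℂ (U.map (χ.ρ ((q.out : K) : G))) := finrank_iSup_le _
      _ ≤ ∑ _q : K ⧸ T, finrank ℂ U :=
          Finset.sum_le_sum fun q _ => Submodule.finrank_map_le _ _
      _ = Nat.card (K ⧸ T) * finrank ℂ U := by
          rw [Finset.sum_const, smul_eq_mul, Finset.card_univ, Nat.card_eq_fintype_card]
  have hW0ne : ∃ v ∈ W0, v ≠ 0 := by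
    by_contra hcon
    push Not at hcon
    apply hlam
    have : W0 = ⊥ := by
      rw [eq_bot_iff]
      intro v hv
      exact (Submodule.mem_bot ℂ).mpr (hcon v hv)
    rw [this, finrank_bot]
  have hTW : ∀ t ∈ T, ∀ v ∈ W0, χ.ρ ((t : K) : G) v ∈ W0 := by
    intro t ht v hv
    have := map_wt χ.ρ N (t : G) lam hv
    rwa [(hTmem t).mp ht] at this
  have hupper := main W0 le_rfl hTW hW0ne
  -- lower bound: distinct conjugate weights
  have hlower : Nat.card (K ⧸ T) * finrank ℂ W0 ≤ finrank ℂ χ.V := by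
    have hinj : Function.Injective (fun q : K ⧸ T => conjW N ((q.out : K) : G) lam) := by
      intro a b hab
      have hab' : conjW N ((a.out : K) : G) lam = conjW N ((b.out : K) : G) lam := hab
      have : (a.out)⁻¹ * b.out ∈ T := by
        rw [hTmem]
        push_cast
        rw [conjW_mul, ← hab', ← conjW_mul, inv_mul_cancel, conjW_one]
      rw [← QuotientGroup.eq] at this
      rw [← Quotient.out_eq a, ← Quotient.out_eq b]
      exact this
    calc Nat.card (K ⧸ T) * finrank ℂ W0
        = ∑ q : K ⧸ T, finrank ℂ (wt χ.ρ N (conjW N ((q.out : K) : G) lam)) := by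
          rw [Finset.sum_congr rfl (fun q _ => finrank_wt_conjW χ.ρ N ((q.out : K) : G) lam),
            Finset.sum_const, smul_eq_mul, Finset.card_univ, Nat.card_eq_fintype_card]
      _ = ∑ mu ∈ Finset.univ.image (fun q : K ⧸ T => conjW N ((q.out : K) : G) lam),
            finrank ℂ (wt χ.ρ N mu) := by
          rw [Finset.sum_image (fun a _ b _ h => hinj h)]
      _ ≤ ∑ mu : N →* ℂˣ, finrank ℂ (wt χ.ρ N mu) :=
          Finset.sum_le_sum_of_subset (Finset.subset_univ _)
      _ = finrank ℂ χ.V := hsum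
  have heq : finrank ℂ χ.V = Nat.card (K ⧸ T) * finrank ℂ W0 := le_antisymm hupper hlower
  -- W0 is an irreducible representation of T
  let τ : Representation ℂ T W0 :=
    { toFun := fun t => (χ.ρ ((t : K) : G)).restrict (hTW t t.2)
      map_one' := by
        ext v
        simp
      map_mul' := by
        intro a b
        ext v
        simp }
  have hτ : ∀ (t : T) (w : W0), ((τ t w : W0) : χ.V) = χ.ρ ((t : K) : G) w := fun _ _ => rfl
  have hτirr : τ.IsIrreducible := by
    apply isIrreducible_of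
    · obtain ⟨v, hv, hv0⟩ := hW0ne
      exact ⟨⟨v, hv⟩, fun h => hv0 (congrArg Subtype.val h)⟩
    · intro U hU ⟨u, hu, hu0⟩
      have h1 := main (U.map W0.subtype) (by
          rintro _ ⟨w, _, rfl⟩
          exact w.2) (by
          rintro t ht _ ⟨w, hw, rfl⟩
          exact ⟨τ ⟨t, ht⟩ w, hU ⟨t, ht⟩ w hw, rfl⟩)
        ⟨u, ⟨u, hu, rfl⟩, fun h => hu0 (Subtype.ext h)⟩
      rw [heq] at h1
      have hpos : 0 < Nat.card (K ⧸ T) := Nat.card_pos
      have h2 := Nat.le_of_mul_le_mul_left h1 hpos
      have h3 : finrank ℂ (U.map W0.subtype) = finrank ℂ U :=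
        Submodule.finrank_map_subtype_eq W0 U
      rw [h3] at h2
      exact Submodule.eq_top_of_finrank_eq (le_antisymm (Submodule.finrank_le U) h2)
  let ψ : Irr T := ⟨W0, τ, hτirr⟩
  have hψ : finrank ℂ W0 ∣ Nat.card T := ψ.degree_dvd
  have hdvd : χ.degree ∣ Nat.card K := by
    show finrank ℂ χ.V ∣ Nat.card K
    rw [heq, Subgroup.card_eq_card_quotient_mul_card_subgroup T]
    exact Nat.mul_dvd_mul_left _ hψ
  intro hcon
  exact hpK (hcon.trans hdvd)

end Pool.Agent.H76.TC
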