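import Pool.Agent.H76.TC.Fratt
import Pool.Agent.H76.TC.Ito

/-!
# [H76 TC Fin] Assembling the steps along a normal series
-/

set_option autoImplicit false

namespace Pool.Agent.H76.TC

open scoped commutatorElement

/-- `G` has a normal Sylow `p`-subgroup. -/
def NormalSylow (G : Type) [Group G] (p : ℕ) : Prop :=
  ∃ P : Sylow p G, (P : Subgroup G).Normal

/-- Three irreducible characters of `G` such that the primes in `ρ(G)` are exactly the primes
dividing the product of their degrees. -/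
def ThreeChar (G : Type) [Group G] : Prop :=
  ∃ χ₁ χ₂ χ₃ : Irr G, ∀ p : ℕ, p.Prime →
    (InRho G p ↔ p ∣ χ₁.degree * χ₂.degree * χ₃.degree)

/-- `M` is the last term of a chain `1 = N 0 ≤ N 1 ≤ ... ≤ N k = M` of normal subgroups of `G`
whose successive factors `N (i+1) / N i` are nilpotent. -/
def NilSeries (G : Type) [Group G] (k : ℕ) (M : Subgroup G) : Prop :=
  ∃ N : ℕ → Subgroup G, N 0 = ⊥ ∧ N k = M ∧ (∀ i, (N i).Normal) ∧
    ∀ i < k, N i ≤ N (i + 1) ∧
      ∃ _ : ((N i).subgroupOf (N (i + 1))).Normal,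
        Group.IsNilpotent (N (i + 1) ⧸ (N i).subgroupOf (N (i + 1)))

section cov

variable {G : Type} [Group G]

theorem cov_mono_set {S T : ℕ → Prop} {m : ℕ} (h : Covered G S m)
    (hST : ∀ p : ℕ, p.Prime → T p → S p) : Covered G T m := by
  obtain ⟨χ, hχ⟩ := h
  exact ⟨χ, fun p hp hT => hχ p hp (hST p hp hT)⟩

theorem cov_add {S T : ℕ → Prop} {m : ℕ} (h : Covered G S m)
    (h1 : ∃ χ : Irr G, ∀ p : ℕ, p.Prime → T p → ¬ S p → p ∣ χ.degree) :
    Covered G T (m + 1) := by
  obtain ⟨χ, hχ⟩ := h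
  obtain ⟨ψ, hψ⟩ := h1
  refine ⟨Fin.snoc (α := fun _ => Irr G) χ ψ, fun p hp hT => ?_⟩
  by_cases hS : S p
  · obtain ⟨i, hi⟩ := hχ p hp hS
    refine ⟨i.castSucc, ?_⟩
    rw [Fin.snoc_castSucc]
    exact hi
  · refine ⟨Fin.last m, ?_⟩
    rw [Fin.snoc_last]
    exact hψ p hp hT hS

theorem cov_zero : Covered G (fun _ => False) 0 :=
  ⟨fun i => i.elim0, fun _ _ h => h.elim⟩

theorem cov_pull {H : Type} [Group H] {S : ℕ → Prop} {m : ℕ} (f : G →* H)
    (hf : Function.Surjective f) (h : Covered H S m) : Covered G S m := by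
  obtain ⟨χ, hχ⟩ := h
  exact ⟨fun i => (χ i).pull f hf, hχ⟩

theorem cov_succ [Finite G] {S : ℕ → Prop} {m : ℕ} (h : Covered G S m) :
    Covered G S (m + 1) := by
  obtain ⟨χ, _⟩ := exists_irr_over (G := G) ⊥ 1
  exact cov_add h ⟨χ, fun p _ h1 h2 => absurd h1 h2⟩

theorem cov_le [Finite G] {S : ℕ → Prop} {m n : ℕ} (h : Covered G S m) (hmn : m ≤ n) :
    Covered G S n := by
  induction hmn with
  | refl => exact h
  | step _ ih => exact cov_succ ih

theorem threeChar_of_cov (h : Covered G (InRho G) 3) : ThreeChar G := by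
  obtain ⟨χ, hχ⟩ := h
  refine ⟨χ 0, χ 1, χ 2, fun p hp => ⟨fun h1 => ?_, fun h1 => ?_⟩⟩
  · obtain ⟨i, hi⟩ := hχ p hp h1
    fin_cases i
    · exact dvd_mul_of_dvd_left (dvd_mul_of_dvd_left hi _) _
    · exact dvd_mul_of_dvd_left (dvd_mul_of_dvd_right hi _) _
    · exact dvd_mul_of_dvd_right hi _
  · refine ⟨hp, ?_⟩
    rcases (Nat.Prime.dvd_mul hp).mp h1 with h2 | h2
    · rcases (Nat.Prime.dvd_mul hp).mp h2 with h3 | h3
      · exact ⟨_, h3⟩
      · exact ⟨_, h3⟩
    · exact ⟨_, h2⟩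

theorem inRho_not_nas [Finite G] {p : ℕ} (h : InRho G p) : ¬ NormalAbelianSylow G p := by
  rintro ⟨P, hP, hPc⟩
  obtain ⟨hp, χ, hχ⟩ := h
  have : Fact p.Prime := ⟨hp⟩
  exact χ.not_dvd_of_normal_abelian p P hPc hχ

end cov

section series

variable {G : Type} [Group G] [Finite G]

theorem cov_nas_of_quot (M : Subgroup G) [M.Normal] {m : ℕ}
    (h : Covered (G ⧸ M) (fun p => ¬ NormalAbelianSylow (G ⧸ M) p) m) :
    Covered G (fun p => ¬ NAS M p) m := by
  have h1 := cov_pull (QuotientGroup.mk' M) (QuotientGroup.mk'_surjective M) h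
  refine cov_mono_set h1 (fun p hp h2 h3 => h2 ?_)
  have : Fact p.Prime := ⟨hp⟩
  have h4 := NAS.comap (QuotientGroup.mk' M) (QuotientGroup.mk'_surjective M)
    (nas_bot_iff.mpr h3)
  rwa [QuotientGroup.ker_mk'] at h4

theorem ns_bot_iff {H : Type} [Group H] {p : ℕ} :
    NS (⊥ : Subgroup H) p ↔ NormalSylow H p := by
  unfold NS NormalSylow
  simp only [sup_bot_eq]

theorem cov_ns_of_quot (M : Subgroup G) [M.Normal] {m : ℕ}
    (h : Covered (G ⧸ M) (fun p => ¬ NormalSylow (G ⧸ M) p) m) :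
    Covered G (fun p => ¬ NS M p) m := by
  have h1 := cov_pull (QuotientGroup.mk' M) (QuotientGroup.mk'_surjective M) h
  refine cov_mono_set h1 (fun p hp h2 h3 => h2 ?_)
  have : Fact p.Prime := ⟨hp⟩
  have h4 := NS.comap (QuotientGroup.mk' M) (QuotientGroup.mk'_surjective M)
    (ns_bot_iff.mpr h3)
  rwa [QuotientGroup.ker_mk'] at h4

/-- a chain of abelian layers -/
theorem chainA (N : ℕ → Subgroup G) (hn : ∀ i, (N i).Normal) (k m : ℕ)
    (hc : ∀ i < k, ⁅N (i + 1), N (i + 1)⁆ ≤ N i)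
    (h : Covered G (fun p => ¬ NAS (N k) p) m) :
    Covered G (fun p => ¬ NAS (N 0) p) (m + k) := by
  induction k generalizing m with
  | zero => exact h
  | succ k ih =>
    have h1 : Covered G (fun p => ¬ NAS (N k) p) (m + 1) := by
      apply cov_add h
      have := hn k
      have := hn (k + 1)
      obtain ⟨χ, hχ⟩ := stepA' (N k) (N (k + 1)) (hc k (Nat.lt_succ_self k))
      exact ⟨χ, fun p hp h2 h3 => hχ p hp (not_not.mp h3) h2⟩
    have h2 := ih (m + 1) (fun i hi => hc i (Nat.lt_succ_of_lt hi)) h1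
    rwa [Nat.add_right_comm] at h2

/-- a chain of nilpotent layers -/
theorem chainC (N : ℕ → Subgroup G) (hn : ∀ i, (N i).Normal) (k m : ℕ)
    (hc : ∀ i < k, ∃ _ : ((N i).subgroupOf (N (i + 1))).Normal,
        Group.IsNilpotent (N (i + 1) ⧸ (N i).subgroupOf (N (i + 1))))
    (h : Covered G (fun p => ¬ NS (N k) p) m) :
    Covered G (fun p => ¬ NS (N 0) p) (m + k) := by
  induction k generalizing m with
  | zero => exact h
  | succ k ih =>
    have h1 : Covered G (fun p => ¬ NS (N k) p) (m + 1) := by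
      apply cov_add h
      have hk0 := hn k
      have hk1 := hn (k + 1)
      have hnil : Group.IsNilpotent ((N (k + 1)).map (QuotientGroup.mk' (N k))) := by
        obtain ⟨hN, hq⟩ := hc k (Nat.lt_succ_self k)
        let g : N (k + 1) →* (N (k + 1)).map (QuotientGroup.mk' (N k)) :=
          (QuotientGroup.mk' (N k)).subgroupMap (N (k + 1))
        have hg : Function.Surjective g :=
          (QuotientGroup.mk' (N k)).subgroupMap_surjective (N (k + 1))
        have hker : (N k).subgroupOf (N (k + 1)) ≤ g.ker := by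
          intro x hx
          rw [MonoidHom.mem_ker]
          apply Subtype.ext
          exact (QuotientGroup.eq_one_iff (N := N k) (x : G)).mpr hx
        let g' := QuotientGroup.lift ((N k).subgroupOf (N (k + 1))) g hker
        have hg' : Function.Surjective g' := by
          intro y
          obtain ⟨x, hx⟩ := hg y
          exact ⟨(x : N (k + 1) ⧸ _), hx⟩
        exact Group.nilpotent_of_surjective g' hg'
      obtain ⟨χ, hχ⟩ := stepC (N k) (N (k + 1)) hnil
      exact ⟨χ, fun p hp h2 h3 => hχ p hp (not_not.mp h3) h2⟩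
    have h2 := ih (m + 1) (fun i hi => hc i (Nat.lt_succ_of_lt hi)) h1
    rwa [Nat.add_right_comm] at h2

/-- The abelian lifting theorem. -/
theorem abelian_layers (N : Subgroup G) [hN : N.Normal] (k m : ℕ) (hk : derivedSeries N k = ⊥)
    (h : Covered (G ⧸ N) (fun p => ¬ NormalAbelianSylow (G ⧸ N) p) m) :
    Covered G (fun p => ¬ NormalAbelianSylow G p) (m + k) := by
  let D : ℕ → Subgroup G := fun i => (derivedSeries N (k - i)).map N.subtype
  have hD : ∀ i, (D i).Normal := by
    intro i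
    have hch : (derivedSeries N (k - i)).Characteristic := inferInstance
    exact ConjAct.normal_of_characteristic_of_normal
  have hc : ∀ i < k, ⁅D (i + 1), D (i + 1)⁆ ≤ D i := by
    intro i hi
    have e : k - i = (k - (i + 1)) + 1 := by omega
    show ⁅(derivedSeries N (k - (i + 1))).map N.subtype,
      (derivedSeries N (k - (i + 1))).map N.subtype⁆ ≤ (derivedSeries N (k - i)).map N.subtype
    rw [← Subgroup.map_commutator, e, derivedSeries_succ]
  have hk' : D k = N := by
    show (derivedSeries N (k - k)).map N.subtype = N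
    rw [Nat.sub_self, derivedSeries_zero, ← MonoidHom.range_eq_map, Subgroup.range_subtype]
  have h0 : D 0 = ⊥ := by
    show (derivedSeries N (k - 0)).map N.subtype = ⊥
    rw [Nat.sub_zero, hk, Subgroup.map_bot]
  have h1 := cov_nas_of_quot N h
  have h2 := chainA D hD k m hc (by rw [hk']; exact h1)
  rw [h0] at h2
  exact cov_mono_set h2 (fun p _ h3 h4 => h3 (nas_bot_iff.mp h4))

/-- The nilpotent lifting theorem. -/
theorem nilpotent_layers (M : Subgroup G) [M.Normal] (k m : ℕ) (hk : NilSeries G k M)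
    (h : Covered (G ⧸ M) (fun p => ¬ NormalSylow (G ⧸ M) p) m) :
    Covered G (fun p => ¬ NormalSylow G p) (m + k) := by
  obtain ⟨N, h0, hkM, hn, hc⟩ := hk
  have h1 := cov_ns_of_quot M h
  have h2 := chainC N hn k m (fun i hi => (hc i hi).2) (by rw [hkM]; exact h1)
  rw [h0] at h2
  exact cov_mono_set h2 (fun p _ h3 h4 => h3 (ns_bot_iff.mp h4))

theorem cov_last {m : ℕ} (h : Covered G (fun p => ¬ NormalSylow G p) m) :
    Covered G (fun p => ¬ NormalAbelianSylow G p) (m + 1) := by
  apply cov_add h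
  obtain ⟨χ, hχ⟩ := stepD G
  refine ⟨χ, fun p hp h1 h2 => hχ p hp (ns_bot_iff.mpr (not_not.mp h2)) ?_⟩
  rwa [nas_bot_iff]

end series

end Pool.Agent.H76.TC
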