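import Pool.Agent.H76.TC.Fin

/-!
# [H76 TC Fin2] Solvable groups
-/

set_option autoImplicit false

namespace Pool.Agent.H76.TC

open scoped commutatorElement

/-- Every normal Sylow subgroup of `G` is abelian. -/
def AbelianNormalSylows (G : Type) [Group G] : Prop :=
  ∀ p : ℕ, p.Prime → ∀ P : Sylow p G, (P : Subgroup G).Normal →
    ∀ x ∈ (P : Subgroup G), ∀ y ∈ (P : Subgroup G), x * y = y * x

variable {G : Type} [Group G]

theorem cov_inRho [Finite G] {m : ℕ} (h : Covered G (fun p => ¬ NormalAbelianSylow G p) m) :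
    Covered G (InRho G) m :=
  cov_mono_set h (fun _ _ h1 => inRho_not_nas h1)

theorem nil_top (M T : Subgroup G) [M.Normal] (hT : T = ⊤)
    (h : ∃ _ : (M.subgroupOf T).Normal, Group.IsNilpotent (T ⧸ M.subgroupOf T)) :
    Group.IsNilpotent (G ⧸ M) := by
  obtain ⟨hn, hq⟩ := h
  let g : T →* G ⧸ M := (QuotientGroup.mk' M).comp T.subtype
  have hker : M.subgroupOf T ≤ g.ker := by
    intro x hx
    rw [MonoidHom.mem_ker]
    exact (QuotientGroup.eq_one_iff (N := M) (x : G)).mpr hx
  let g' := QuotientGroup.lift (M.subgroupOf T) g hker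
  have hg' : Function.Surjective g' := by
    intro y
    obtain ⟨x, rfl⟩ := QuotientGroup.mk_surjective y
    exact ⟨((⟨x, hT ▸ Subgroup.mem_top x⟩ : T) : T ⧸ _), rfl⟩
  exact Group.nilpotent_of_surjective g' hg'

theorem cov_nilpotent (H : Type) [Group H] [Finite H] (hH : Group.IsNilpotent H) :
    Covered H (fun p => ¬ NormalSylow H p) 0 := by
  refine cov_mono_set cov_zero (fun p hp h1 => h1 ?_)
  have : Fact p.Prime := ⟨hp⟩
  have h2 := ((Group.isNilpotent_of_finite_tfae (G := H)).out 0 3).mp hH
  obtain ⟨P⟩ : Nonempty (Sylow p H) := inferInstance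
  exact ⟨P, h2 p ⟨hp⟩ P⟩

theorem cov_abelian (H : Type) [Group H] [Finite H] (hH : ∀ x y : H, x * y = y * x) :
    Covered H (fun p => ¬ NormalAbelianSylow H p) 0 := by
  refine cov_mono_set cov_zero (fun p hp h1 => h1 ?_)
  have : Fact p.Prime := ⟨hp⟩
  obtain ⟨P⟩ : Nonempty (Sylow p H) := inferInstance
  refine ⟨P, ⟨fun n hn g => ?_⟩, fun x _ y _ => hH x y⟩
  rwa [hH g n, mul_inv_cancel_right]

/-- solvable groups of derived length at most `d + 1` -/
theorem solvable_derived [Finite G] (d : ℕ) (h : derivedSeries G (d + 1) = ⊥) :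
    Covered G (fun p => ¬ NormalAbelianSylow G p) d := by
  have hN : (commutator G).Normal := inferInstance
  have hk : derivedSeries (commutator G) d = ⊥ := by
    have h1 : ∀ j : ℕ, (derivedSeries (commutator G) j).map (commutator G).subtype =
        derivedSeries G (j + 1) := by
      intro j
      induction j with
      | zero =>
        rw [derivedSeries_zero, ← MonoidHom.range_eq_map, Subgroup.range_subtype,
          derivedSeries_one]
      | succ j ih => rw [derivedSeries_succ, Subgroup.map_commutator, ih, ← derivedSeries_succ]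
    have h2 := h1 d
    rw [h] at h2
    rw [← Subgroup.map_eq_bot_iff_of_injective _ (commutator G).subtype_injective]
    exact h2
  have hq : Covered (G ⧸ commutator G) (fun p => ¬ NormalAbelianSylow (G ⧸ commutator G) p) 0 := by
    apply cov_abelian
    intro x y
    exact mul_comm (G := Abelianization G) x y
  have h3 := abelian_layers (commutator G) d 0 hk hq
  rwa [zero_add] at h3

/-- solvable groups with a nilpotent series of length `h + 1` -/
theorem solvable_nilpotent [Finite G] (h : ℕ) (hG : NilSeries G (h + 1) ⊤) :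
    Covered G (fun p => ¬ NormalSylow G p) h := by
  obtain ⟨N, h0, hk, hn, hc⟩ := hG
  have := hn h
  have hnil : Group.IsNilpotent (G ⧸ N h) :=
    nil_top (N h) (N (h + 1)) hk (hc h (Nat.lt_succ_self h)).2
  have h3 := nilpotent_layers (N h) h 0
    ⟨N, h0, rfl, hn, fun i hi => hc i (Nat.lt_succ_of_lt hi)⟩ (cov_nilpotent _ hnil)
  rwa [zero_add] at h3

end Pool.Agent.H76.TC
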