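import Pool.Agent.H76.TC.Step

/-!
# [H76 TC Fratt] Nilpotent layers

If `N` is a nilpotent normal subgroup and `P ⊔ ⁅N, N⁆` is normal for a Sylow subgroup `P`, then `P`
is normal (Frattini argument). So one character covers all primes whose Sylow subgroups are normal
modulo `N` but not in `G`.
-/

set_option autoImplicit false

namespace Pool.Agent.H76.TC

open Module
open scoped commutatorElement

/-- the commutator subgroup of a finite nilpotent group consists of nongenerators -/
theorem nil_gen {A : Type} [Group A] [Finite A] [hA : Group.IsNilpotent A] (H : Subgroup A)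
    (h : H ⊔ ⁅(⊤ : Subgroup A), (⊤ : Subgroup A)⁆ = ⊤) : H = ⊤ := by
  rcases eq_top_or_exists_le_coatom H with h1 | ⟨M, hM, hHM⟩
  · exact h1
  · exfalso
    have hMn : M.Normal :=
      Subgroup.NormalizerCondition.normal_of_coatom M Group.normalizerCondition_of_isNilpotent hM
    apply hM.1
    rw [eq_top_iff, ← h]
    apply sup_le hHM
    -- A ⧸ M is commutative
    have hnt : Nontrivial (A ⧸ M) := by
      rw [← not_subsingleton_iff_nontrivial]
      intro hs
      apply hM.1
      rw [eq_top_iff]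
      intro x _
      rw [← QuotientGroup.eq_one_iff]
      exact Subsingleton.elim _ _
    have hcb : Subgroup.center (A ⧸ M) ≠ ⊥ := Group.IsNilpotent.center_ne_bot _
    have hle : M ≤ (Subgroup.center (A ⧸ M)).comap (QuotientGroup.mk' M) := by
      intro x hx
      rw [Subgroup.mem_comap]
      have : QuotientGroup.mk' M x = 1 := (QuotientGroup.eq_one_iff x).mpr hx
      rw [this]
      exact one_mem _
    have hne : (Subgroup.center (A ⧸ M)).comap (QuotientGroup.mk' M) ≠ M := by
      intro he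
      apply hcb
      rw [eq_bot_iff]
      intro y hy
      obtain ⟨x, rfl⟩ := QuotientGroup.mk_surjective y
      have hx : x ∈ (Subgroup.center (A ⧸ M)).comap (QuotientGroup.mk' M) := hy
      rw [he] at hx
      exact (QuotientGroup.eq_one_iff x).mpr hx
    have htop : (Subgroup.center (A ⧸ M)).comap (QuotientGroup.mk' M) = ⊤ :=
      hM.2 _ (lt_of_le_of_ne hle (Ne.symm hne))
    rw [Subgroup.commutator_le]
    intro x _ y _
    have hx : x ∈ (Subgroup.center (A ⧸ M)).comap (QuotientGroup.mk' M) := htop ▸ Subgroup.mem_top x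
    have hxc : ((x : A) : A ⧸ M) ∈ Subgroup.center (A ⧸ M) := hx
    rw [← QuotientGroup.eq_one_iff, commutatorElement_def]
    have hxy := (Subgroup.mem_center_iff.mp hxc) ((y : A) : A ⧸ M)
    simp only [QuotientGroup.mk_mul, QuotientGroup.mk_inv]
    rw [← hxy]
    group

/-- Frattini argument: if `P ⊔ ⁅N, N⁆` is normal with `N` nilpotent normal then `P` is normal. -/
theorem normal_of_sup_comm {G : Type} [Group G] [Finite G] {p : ℕ} [Fact p.Prime]
    (N : Subgroup G) [hNn : N.Normal] [hN : Group.IsNilpotent N] (P : Sylow p G)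
    (h : ((P : Subgroup G) ⊔ ⁅N, N⁆).Normal) : (P : Subgroup G).Normal := by
  have h1 := Sylow.normalizer_sup_eq_top' (N := (P : Subgroup G) ⊔ ⁅N, N⁆) P le_sup_left
  set Q : Subgroup G := Subgroup.normalizer (P : Set G) with hQ
  have hPQ : (P : Subgroup G) ≤ Q := Subgroup.le_normalizer
  have h2 : Q ⊔ ⁅N, N⁆ = ⊤ := by
    rw [eq_top_iff, ← h1]
    apply sup_le le_sup_left
    apply sup_le
    · exact le_trans hPQ le_sup_left
    · exact le_sup_right
  -- inside N
  have h3 : (Q.subgroupOf N) ⊔ ⁅(⊤ : Subgroup N), (⊤ : Subgroup N)⁆ = ⊤ := by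
    rw [eq_top_iff]
    rintro ⟨n, hn⟩ _
    have hn2 : n ∈ Q ⊔ ⁅N, N⁆ := h2 ▸ Subgroup.mem_top n
    obtain ⟨x, hx, c, hc, hxc⟩ := Subgroup.mem_sup_of_normal_right.mp hn2
    have hcN : c ∈ N := (Subgroup.commutator_le_left N N) hc
    have hxN : x ∈ N := by
      have : x = n * c⁻¹ := by rw [← hxc]; group
      rw [this]
      exact mul_mem hn (inv_mem hcN)
    have e : (⟨n, hn⟩ : N) = ⟨x, hxN⟩ * ⟨c, hcN⟩ := Subtype.ext hxc.symm
    rw [e]
    apply mul_mem
    · apply Subgroup.mem_sup_left
      exact hx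
    · apply Subgroup.mem_sup_right
      have h4 : (⁅(⊤ : Subgroup N), (⊤ : Subgroup N)⁆).map N.subtype = ⁅N, N⁆ := by
        rw [Subgroup.map_commutator, ← MonoidHom.range_eq_map, Subgroup.range_subtype]
      rw [← h4] at hc
      obtain ⟨y, hy, hyc⟩ := hc
      have : y = ⟨c, hcN⟩ := Subtype.ext hyc
      rw [← this]
      exact hy
  have h5 := nil_gen (Q.subgroupOf N) h3
  have h6 : N ≤ Q := by
    intro n hn
    have : (⟨n, hn⟩ : N) ∈ Q.subgroupOf N := h5 ▸ Subgroup.mem_top _
    exact this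
  have h7 : Q = ⊤ := by
    rw [eq_top_iff, ← h2]
    apply sup_le le_rfl
    exact le_trans (Subgroup.commutator_le_left N N) h6
  exact Subgroup.normalizer_eq_top_iff.mp h7

section transfer

variable {G : Type} [Group G]

/-- pulling back an irreducible representation along a surjection -/
noncomputable def Irr.pull {H : Type} [Group H] (f : G →* H) (hf : Function.Surjective f)
    (χ : Irr H) : Irr G where
  V := χ.V
  ρ := χ.ρ.comp f
  irr := by
    apply isIrreducible_of
    · exact χ.exists_ne_zero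
    · intro W hW hne
      apply χ.eq_top W _ hne
      intro h v hv
      obtain ⟨g, rfl⟩ := hf h
      exact hW g v hv

theorem Irr.pull_degree {H : Type} [Group H] (f : G →* H) (hf : Function.Surjective f)
    (χ : Irr H) : (χ.pull f hf).degree = χ.degree := rfl

variable [Finite G]

/-- the abelian step in the quotient by `M` -/
theorem stepA' (M N : Subgroup G) [hM : M.Normal] [hN : N.Normal]
    (hc : ⁅N, N⁆ ≤ M) :
    ∃ χ : Irr G, ∀ p : ℕ, p.Prime → NAS N p → ¬ NAS M p → p ∣ χ.degree := by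
  let f := QuotientGroup.mk' M
  have hf : Function.Surjective f := QuotientGroup.mk'_surjective M
  have hker : f.ker = M := QuotientGroup.ker_mk' M
  have hNm : (N.map f).Normal := hN.map f hf
  have hcomm : ∀ x ∈ N.map f, ∀ y ∈ N.map f, x * y = y * x := by
    rintro _ ⟨x, hx, rfl⟩ _ ⟨y, hy, rfl⟩
    rw [← commutatorElement_eq_one_iff_mul_comm, ← map_commutatorElement]
    exact (QuotientGroup.eq_one_iff _).mpr (hc (Subgroup.commutator_mem_commutator hx hy))
  obtain ⟨χ, hχ⟩ := stepA (N.map f) hcomm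
  refine ⟨χ.pull f hf, fun p hp h1 h2 => ?_⟩
  have : Fact p.Prime := ⟨hp⟩
  apply hχ p hp (h1.map f hf)
  intro h3
  apply h2
  have h4 := h3.comap f hf
  rwa [hker] at h4

/-- the step for Sylow subgroups that are not normal -/
theorem stepB' (M N : Subgroup G) [hM : M.Normal] [hN : N.Normal]
    (hc : ⁅N, N⁆ ≤ M) :
    ∃ χ : Irr G, ∀ p : ℕ, p.Prime → NS N p → ¬ NS M p → p ∣ χ.degree := by
  let f := QuotientGroup.mk' M
  have hf : Function.Surjective f := QuotientGroup.mk'_surjective M
  have hker : f.ker = M := QuotientGroup.ker_mk' M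
  have hNm : (N.map f).Normal := hN.map f hf
  have hcomm : ∀ x ∈ N.map f, ∀ y ∈ N.map f, x * y = y * x := by
    rintro _ ⟨x, hx, rfl⟩ _ ⟨y, hy, rfl⟩
    rw [← commutatorElement_eq_one_iff_mul_comm, ← map_commutatorElement]
    exact (QuotientGroup.eq_one_iff _).mpr (hc (Subgroup.commutator_mem_commutator hx hy))
  obtain ⟨χ, hχ⟩ := stepB (N.map f) hcomm
  refine ⟨χ.pull f hf, fun p hp h1 h2 => ?_⟩
  have : Fact p.Prime := ⟨hp⟩
  apply hχ p hp (h1.map f hf)
  intro h3
  apply h2
  have h4 := h3.comap f hf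
  rwa [hker] at h4

/-- the nilpotent step: `N / M` nilpotent -/
theorem stepC (M N : Subgroup G) [hM : M.Normal] [hN : N.Normal]
    (hnil : Group.IsNilpotent (N.map (QuotientGroup.mk' M))) :
    ∃ χ : Irr G, ∀ p : ℕ, p.Prime → NS N p → ¬ NS M p → p ∣ χ.degree := by
  let f := QuotientGroup.mk' M
  have hf : Function.Surjective f := QuotientGroup.mk'_surjective M
  have hker : f.ker = M := QuotientGroup.ker_mk' M
  have hNm : (N.map f).Normal := hN.map f hf
  obtain ⟨χ, hχ⟩ := stepB' (G := G ⧸ M) ⁅N.map f, N.map f⁆ (N.map f) le_rfl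
  refine ⟨χ.pull f hf, fun p hp h1 h2 => ?_⟩
  have : Fact p.Prime := ⟨hp⟩
  apply hχ p hp (h1.map f hf)
  rintro ⟨P, hP⟩
  apply h2
  have h5 : (P : Subgroup (G ⧸ M)).Normal := normal_of_sup_comm (N.map f) P hP
  have h6 : NS (⊥ : Subgroup (G ⧸ M)) p := ⟨P, by rw [sup_bot_eq]; exact h5⟩
  have h4 := h6.comap f hf
  rwa [hker] at h4

end transfer

end Pool.Agent.H76.TC
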