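import Pool.Agent.H76.TC.Ex

/-!
# [H76 TC Frob] The degree of an irreducible representation divides the order of the group
-/

set_option autoImplicit false

namespace Pool.Agent.H76.TC

open Module

/-- character values are algebraic integers -/
theorem isIntegral_trace {G : Type} [Group G] [Finite G] {V : Type} [AddCommGroup V] [Module ℂ V]
    [FiniteDimensional ℂ V] (ρ : Representation ℂ G V) (g : G) :
    IsIntegral ℤ (LinearMap.trace ℂ V (ρ g)) := by
  rw [Module.End.trace_eq_sum_roots_charpoly_of_splits (IsAlgClosed.splits _)]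
  have h : ∀ μ ∈ (LinearMap.charpoly (ρ g)).roots, IsIntegral ℤ μ := by
    intro μ hμ
    have h1 := Polynomial.isRoot_of_mem_roots hμ
    rw [← Module.End.hasEigenvalue_iff_isRoot_charpoly] at h1
    obtain ⟨v, hv⟩ := h1.exists_hasEigenvector
    have h2 : ∀ j : ℕ, ρ (g ^ j) v = μ ^ j • v := by
      intro j
      induction j with
      | zero => simp
      | succ j ihj =>
        rw [pow_succ, map_mul, Module.End.mul_apply, hv.apply_eq_smul, map_smul, ihj, smul_smul,
          pow_succ, mul_comm]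
    have h3 := h2 (Nat.card G)
    rw [pow_card_eq_one', map_one, Module.End.one_apply] at h3
    have h4 : μ ^ Nat.card G = 1 := by
      have h5 : (1 - μ ^ Nat.card G) • v = 0 := by rw [sub_smul, one_smul, ← h3, sub_self]
      rcases smul_eq_zero.mp h5 with h6 | h6
      · exact (sub_eq_zero.mp h6).symm
      · exact absurd h6 hv.2
    refine ⟨Polynomial.X ^ Nat.card G - 1, ?_, ?_⟩
    · exact Polynomial.monic_X_pow_sub_C 1 Nat.card_pos.ne'
    · simp [h4]
  exact IsIntegral.multiset_sum h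

theorem trace_mul_comm' {G : Type} [Group G] {V : Type} [AddCommGroup V] [Module ℂ V]
    [FiniteDimensional ℂ V] (ρ : Representation ℂ G V) (g h : G) :
    LinearMap.trace ℂ V (ρ (g * h)) = LinearMap.trace ℂ V (ρ (h * g)) := by
  rw [map_mul ρ g h, map_mul ρ h g, LinearMap.trace_mul_comm]

/-- an operator commuting with an irreducible representation is a scalar -/
theorem Irr.schur {G : Type} [Group G] (χ : Irr G) (z : Module.End ℂ χ.V)
    (hz : ∀ g : G, ∀ v : χ.V, z (χ.ρ g v) = χ.ρ g (z v)) : ∃ c : ℂ, ∀ v : χ.V, z v = c • v := by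
  obtain ⟨v0, hv0⟩ := χ.exists_ne_zero
  have : Nontrivial χ.V := ⟨v0, 0, hv0⟩
  obtain ⟨c, hc⟩ := Module.End.exists_eigenvalue z
  obtain ⟨v, hv⟩ := hc.exists_hasEigenvector
  have htop : Module.End.eigenspace z c = ⊤ := by
    apply χ.eq_top
    · intro g w hw
      rw [Module.End.mem_eigenspace_iff] at hw ⊢
      rw [hz, hw, map_smul]
    · exact ⟨v, hv.1, hv.2⟩
  refine ⟨c, fun w => ?_⟩
  have : w ∈ Module.End.eigenspace z c := htop ▸ Submodule.mem_top
  exact Module.End.mem_eigenspace_iff.mp this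

/-- Frobenius: the degree divides the order of the group. -/
theorem Irr.degree_dvd {G : Type} [Group G] [Finite G] (χ : Irr G) : χ.degree ∣ Nat.card G := by
  classical
  have : Fintype G := Fintype.ofFinite G
  have := χ.irr
  set tr : G → ℂ := fun g => LinearMap.trace ℂ χ.V (χ.ρ g) with htr
  have hG0 : (Nat.card G : ℂ) ≠ 0 := Nat.cast_ne_zero.mpr Nat.card_pos.ne'
  have : Invertible (Nat.card G : ℂ) := invertibleOfNonzero hG0
  obtain ⟨v0, hv0⟩ := χ.exists_ne_zero
  have hnt : Nontrivial χ.V := ⟨v0, 0, hv0⟩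
  have hn0 : (χ.degree : ℂ) ≠ 0 := by
    rw [Nat.cast_ne_zero]
    exact (Module.finrank_pos (R := ℂ) (M := χ.V)).ne'
  -- orthogonality
  have horth : ∑ g : G, tr g * tr g⁻¹ = (Nat.card G : ℂ) := by
    have h := Representation.char_orthonormal χ.ρ χ.ρ
    rw [if_pos ⟨Representation.Equiv.refl χ.ρ⟩] at h
    have h2 : ∑ g : G, χ.ρ.character g * χ.ρ.character g⁻¹ = (Nat.card G : ℂ) := by
      field_simp at h
      simpa using h
    exact h2
  -- the central element
  let z : Module.End ℂ χ.V := ∑ g : G, tr g⁻¹ • χ.ρ g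
  have hz_apply : ∀ v, z v = ∑ g : G, tr g⁻¹ • χ.ρ g v := by
    intro v
    show (∑ g : G, tr g⁻¹ • χ.ρ g) v = _
    rw [LinearMap.sum_apply]
    rfl
  have hzc : ∀ h : G, ∀ v : χ.V, z (χ.ρ h v) = χ.ρ h (z v) := by
    intro h v
    rw [hz_apply, hz_apply, map_sum]
    rw [← Equiv.sum_comp (MulAut.conj h).toEquiv]
    apply Finset.sum_congr rfl
    intro g _
    have e1 : tr ((MulAut.conj h).toEquiv g)⁻¹ = tr g⁻¹ := by
      show LinearMap.trace ℂ χ.V (χ.ρ (h * g * h⁻¹)⁻¹) = LinearMap.trace ℂ χ.V (χ.ρ g⁻¹)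
      have e2 : (h * g * h⁻¹)⁻¹ = h * (g⁻¹ * h⁻¹) := by group
      rw [e2, trace_mul_comm']
      congr 2
      group
    rw [e1, map_smul]
    congr 1
    show χ.ρ (h * g * h⁻¹) (χ.ρ h v) = χ.ρ h (χ.ρ g v)
    rw [← Module.End.mul_apply, ← map_mul, ← Module.End.mul_apply, ← map_mul]
    congr 2
    group
  obtain ⟨c, hc⟩ := χ.schur z hzc
  have hcn : (χ.degree : ℂ) * c = (Nat.card G : ℂ) := by
    have h1 : LinearMap.trace ℂ χ.V z = c * (χ.degree : ℂ) := by
      have h2 : z = c • (1 : Module.End ℂ χ.V) := by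
        ext v
        rw [hc]
        rfl
      rw [h2, map_smul, LinearMap.trace_one, smul_eq_mul]
      rfl
    have h3 : LinearMap.trace ℂ χ.V z = ∑ g : G, tr g * tr g⁻¹ := by
      show LinearMap.trace ℂ χ.V (∑ g : G, tr g⁻¹ • χ.ρ g) = _
      rw [map_sum]
      apply Finset.sum_congr rfl
      intro g _
      rw [map_smul, smul_eq_mul, mul_comm]
    rw [mul_comm, ← h1, h3, horth]
  -- c is an eigenvalue of a matrix of algebraic integers
  obtain ⟨f, hf⟩ : ∃ f : χ.V →ₗ[ℂ] ℂ, f v0 ≠ 0 := by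
    by_contra hcon
    push Not at hcon
    exact hv0 ((Module.forall_dual_apply_eq_zero_iff ℂ v0).mp hcon)
  let φ : G → ℂ := fun h => f (χ.ρ h v0)
  have hφ : ∀ h : G, ∑ k : G, tr (k⁻¹ * h) * φ k = c * φ h := by
    intro h
    have h1 : f (χ.ρ h (z v0)) = c * φ h := by rw [hc, map_smul, map_smul, smul_eq_mul]
    rw [← h1, hz_apply, map_sum, map_sum]
    rw [← Equiv.sum_comp (Equiv.mulLeft h)]
    apply Finset.sum_congr rfl
    intro g _
    rw [map_smul, map_smul, smul_eq_mul, Equiv.coe_mulLeft]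
    have e1 : (h * g)⁻¹ * h = g⁻¹ := by group
    rw [e1]
    congr 1
    show f (χ.ρ (h * g) v0) = f (χ.ρ h (χ.ρ g v0))
    rw [map_mul, Module.End.mul_apply]
  let O := integralClosure ℤ ℂ
  let M' : Matrix G G O := fun h k => ⟨tr (k⁻¹ * h), isIntegral_trace χ.ρ _⟩
  have hMdet : (Matrix.scalar G c - M'.map (algebraMap O ℂ)).det = 0 := by
    rw [← Matrix.exists_mulVec_eq_zero_iff]
    refine ⟨φ, ?_, ?_⟩
    · intro h
      apply hf
      have := congrFun h 1
      simpa [φ] using this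
    · ext h
      rw [Matrix.sub_mulVec, Pi.sub_apply, Pi.zero_apply, sub_eq_zero]
      have e1 : (Matrix.scalar G c).mulVec φ h = c * φ h := by
        rw [Matrix.scalar_apply, Matrix.mulVec_diagonal]
      rw [e1, ← hφ h]
      rfl
  have hint : IsIntegral O c := by
    refine ⟨M'.charpoly, M'.charpoly_monic, ?_⟩
    rw [← Polynomial.eval_map, ← Matrix.charpoly_map, Matrix.eval_charpoly]
    exact hMdet
  have hintZ : IsIntegral ℤ c := isIntegral_trans (A := O) c hint
  -- c is rational, hence an integer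
  have hcq : c = (((Nat.card G : ℚ) / (χ.degree : ℚ) : ℚ) : ℂ) := by
    push_cast
    rw [eq_div_iff hn0, mul_comm]
    exact hcn
  have hintQ : IsIntegral ℤ ((Nat.card G : ℚ) / (χ.degree : ℚ)) := by
    rw [hcq] at hintZ
    exact (isIntegral_algebraMap_iff (algebraMap ℚ ℂ).injective).mp hintZ
  obtain ⟨m, hm⟩ := IsIntegrallyClosed.isIntegral_iff.mp hintQ
  have hn0' : (χ.degree : ℚ) ≠ 0 := by
    intro h
    apply hn0
    exact_mod_cast h
  have h1 : (Nat.card G : ℚ) = (m : ℚ) * (χ.degree : ℚ) := by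
    have : (m : ℚ) = (Nat.card G : ℚ) / (χ.degree : ℚ) := by simpa using hm
    rw [this]
    field_simp
  have h2 : ((Nat.card G : ℕ) : ℤ) = m * (χ.degree : ℤ) := by exact_mod_cast h1
  have h3 : (χ.degree : ℤ) ∣ ((Nat.card G : ℕ) : ℤ) := ⟨m, by rw [h2, mul_comm]⟩
  exact_mod_cast h3

end Pool.Agent.H76.TC
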