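import Pool.Agent.H76.TC.Defs

/-!
# [H76 TC Grp] Sylow subgroups modulo normal subgroups

`NS M p`: `P ⊔ M` is normal for some Sylow `p`-subgroup `P`. `NAS M p`: moreover `⁅P, P⁆ ≤ M`.
-/

set_option autoImplicit false

namespace Pool.Agent.H76.TC

open scoped commutatorElement

/-- the Sylow `p`-subgroups of `G ⧸ M` are normal, formulated in `G` -/
def NS {G : Type} [Group G] (M : Subgroup G) (p : ℕ) : Prop :=
  ∃ P : Sylow p G, ((P : Subgroup G) ⊔ M).Normal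

/-- the Sylow `p`-subgroups of `G ⧸ M` are normal and abelian, formulated in `G` -/
def NAS {G : Type} [Group G] (M : Subgroup G) (p : ℕ) : Prop :=
  ∃ P : Sylow p G, ((P : Subgroup G) ⊔ M).Normal ∧ ⁅(P : Subgroup G), (P : Subgroup G)⁆ ≤ M

section

variable {G : Type} [Group G]

theorem NAS.toNS {M : Subgroup G} {p : ℕ} (h : NAS M p) : NS M p := by
  obtain ⟨P, h1, _⟩ := h
  exact ⟨P, h1⟩

theorem nas_bot_iff {p : ℕ} : NAS (⊥ : Subgroup G) p ↔ NormalAbelianSylow G p := by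
  constructor
  · rintro ⟨P, h1, h2⟩
    rw [sup_bot_eq] at h1
    refine ⟨P, h1, fun x hx y hy => ?_⟩
    have h3 : ⁅x, y⁆ ∈ (⊥ : Subgroup G) := h2 (Subgroup.commutator_mem_commutator hx hy)
    rw [Subgroup.mem_bot, commutatorElement_eq_one_iff_mul_comm] at h3
    exact h3
  · rintro ⟨P, h1, h2⟩
    refine ⟨P, ?_, ?_⟩
    · rw [sup_bot_eq]
      exact h1
    · rw [Subgroup.commutator_le]
      intro x hx y hy
      rw [Subgroup.mem_bot, commutatorElement_eq_one_iff_mul_comm]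
      exact h2 x hx y hy

variable {H : Type} [Group H]

theorem NS.map [Finite G] {p : ℕ} [Fact p.Prime] {N : Subgroup G} (h : NS N p) (f : G →* H)
    (hf : Function.Surjective f) : NS (N.map f) p := by
  obtain ⟨P, h1⟩ := h
  have : Finite H := Finite.of_surjective f hf
  refine ⟨P.mapSurjective hf, ?_⟩
  rw [Sylow.coe_mapSurjective, ← Subgroup.map_sup]
  exact h1.map f hf

theorem NAS.map [Finite G] {p : ℕ} [Fact p.Prime] {N : Subgroup G} (h : NAS N p) (f : G →* H)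
    (hf : Function.Surjective f) : NAS (N.map f) p := by
  obtain ⟨P, h1, h2⟩ := h
  have : Finite H := Finite.of_surjective f hf
  refine ⟨P.mapSurjective hf, ?_, ?_⟩
  · rw [Sylow.coe_mapSurjective, ← Subgroup.map_sup]
    exact h1.map f hf
  · rw [Sylow.coe_mapSurjective, ← Subgroup.map_commutator]
    exact Subgroup.map_mono h2

theorem NS.comap [Finite G] {p : ℕ} [Fact p.Prime] (f : G →* H)
    (hf : Function.Surjective f) (h : NS (⊥ : Subgroup H) p) : NS f.ker p := by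
  obtain ⟨Q, h1⟩ := h
  rw [sup_bot_eq] at h1
  have : Finite H := Finite.of_surjective f hf
  obtain ⟨P, hP⟩ := Sylow.mapSurjective_surjective hf p Q
  refine ⟨P, ?_⟩
  have h2 : (P : Subgroup G).map f = Q := by rw [← hP, Sylow.coe_mapSurjective]
  rw [← Subgroup.comap_map_eq, h2]
  exact h1.comap f

theorem NAS.comap [Finite G] {p : ℕ} [Fact p.Prime] (f : G →* H)
    (hf : Function.Surjective f) (h : NAS (⊥ : Subgroup H) p) : NAS f.ker p := by
  obtain ⟨Q, h1, h3⟩ := h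
  rw [sup_bot_eq] at h1
  have : Finite H := Finite.of_surjective f hf
  obtain ⟨P, hP⟩ := Sylow.mapSurjective_surjective hf p Q
  have h2 : (P : Subgroup G).map f = Q := by rw [← hP, Sylow.coe_mapSurjective]
  refine ⟨P, ?_, ?_⟩
  · rw [← Subgroup.comap_map_eq, h2]
    exact h1.comap f
  · have h4 : (⁅(P : Subgroup G), (P : Subgroup G)⁆).map f ≤ ⊥ := by
      rw [Subgroup.map_commutator, h2]
      exact h3
    rw [Subgroup.map_le_iff_le_comap] at h4
    exact h4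

/-- elements of an abelian normal subgroup of order a power of `p` lie in the Sylow subgroup -/
theorem mem_sylow_of_mem [Finite G] {p : ℕ} [Fact p.Prime] (N : Subgroup G) [hNn : N.Normal]
    (hN : ∀ x ∈ N, ∀ y ∈ N, x * y = y * x) (P : Sylow p G) (a : G) (ha : a ∈ N) (k : ℕ)
    (hk : a ^ p ^ k = 1) : a ∈ (P : Subgroup G) := by
  let Np : Subgroup G :=
    { carrier := {x | x ∈ N ∧ ∃ k : ℕ, x ^ p ^ k = 1}
      mul_mem' := by
        rintro x y ⟨hx, i, hi⟩ ⟨hy, j, hj⟩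
        refine ⟨mul_mem hx hy, i + j, ?_⟩
        have hc : Commute x y := hN x hx y hy
        rw [hc.mul_pow]
        have e1 : x ^ p ^ (i + j) = 1 := by rw [pow_add, pow_mul, hi, one_pow]
        have e2 : y ^ p ^ (i + j) = 1 := by rw [add_comm, pow_add, pow_mul, hj, one_pow]
        rw [e1, e2, one_mul]
      one_mem' := ⟨one_mem N, 0, by simp⟩
      inv_mem' := by
        rintro x ⟨hx, i, hi⟩
        exact ⟨inv_mem hx, i, by rw [inv_pow, hi, inv_one]⟩ }
  have hNp : Np.Normal := by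
    refine ⟨?_⟩
    rintro x ⟨hx, i, hi⟩ g
    refine ⟨hNn.conj_mem x hx g, i, ?_⟩
    rw [conj_pow, hi, mul_one, mul_inv_cancel]
  have hp : IsPGroup p Np := by
    rintro ⟨x, hx, i, hi⟩
    exact ⟨i, Subtype.ext hi⟩
  exact hp.le_sylow_of_normal P ⟨ha, k, hk⟩

/-- decomposition of an element of an abelian normal subgroup -/
theorem exists_decomp [Finite G] {p : ℕ} [hp : Fact p.Prime] (N : Subgroup G) [N.Normal]
    (hN : ∀ x ∈ N, ∀ y ∈ N, x * y = y * x) (P : Sylow p G) (a : G) (ha : a ∈ N) :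
    ∃ b c : G, b ∈ (P : Subgroup G) ∧ c ∈ N ∧ (∃ m : ℕ, Nat.Coprime p m ∧ c ^ m = 1) ∧
      a = b * c := by
  obtain ⟨k, m, hpm, hcard⟩ : ∃ k m : ℕ, ¬ p ∣ m ∧ orderOf a = p ^ k * m :=
    ⟨(orderOf a).factorization p, orderOf a / p ^ (orderOf a).factorization p,
      Nat.not_dvd_ordCompl hp.out (orderOf_pos a).ne', (Nat.ordProj_mul_ordCompl_eq_self _ _).symm⟩
  have hcop : Nat.Coprime p m := (hp.out.coprime_iff_not_dvd).mpr hpm
  have hcop' : IsCoprime ((p ^ k : ℕ) : ℤ) (m : ℤ) :=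
    Nat.isCoprime_iff_coprime.mpr (Nat.Coprime.pow_left k hcop)
  obtain ⟨u, v, huv⟩ := hcop'
  have ha1 : a ^ (p ^ k * m) = 1 := by rw [← hcard]; exact pow_orderOf_eq_one a
  refine ⟨a ^ (v * m), a ^ (u * (p ^ k : ℕ)), ?_, N.zpow_mem ha _, ⟨m, hcop, ?_⟩, ?_⟩
  · apply mem_sylow_of_mem N hN P _ (N.zpow_mem ha _) k
    rw [← zpow_natCast, ← zpow_mul]
    have : v * (m : ℤ) * ((p ^ k : ℕ) : ℤ) = ((p ^ k * m : ℕ) : ℤ) * v := by push_cast; ring
    rw [this, zpow_mul, zpow_natCast, ha1, one_zpow]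
  · rw [← zpow_natCast, ← zpow_mul]
    have : u * ((p ^ k : ℕ) : ℤ) * (m : ℤ) = ((p ^ k * m : ℕ) : ℤ) * u := by push_cast; ring
    rw [this, zpow_mul, zpow_natCast, ha1, one_zpow]
  · rw [← zpow_add, add_comm, huv, zpow_one]

/-- type I: if `P` centralises the elements of `N` of order prime to `p`, elements of `P ⊔ N` are
products of an element of `P` and an element of `N` of order prime to `p` commuting with
`P` and `N` -/
theorem sup_decomp [Finite G] {p : ℕ} [hp : Fact p.Prime] (N : Subgroup G) [N.Normal]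
    (hN : ∀ x ∈ N, ∀ y ∈ N, x * y = y * x) (P : Sylow p G)
    (hI : ∀ x ∈ (P : Subgroup G), ∀ a ∈ N, ∀ m : ℕ, Nat.Coprime p m → a ^ m = 1 → ⁅x, a⁆ = 1)
    (g : G) (hg : g ∈ (P : Subgroup G) ⊔ N) :
    ∃ b c : G, b ∈ (P : Subgroup G) ∧ c ∈ N ∧ (∃ m : ℕ, Nat.Coprime p m ∧ c ^ m = 1) ∧
      (∀ x ∈ (P : Subgroup G), x * c = c * x) ∧ g = b * c := by
  obtain ⟨x, hx, a, ha, rfl⟩ := Subgroup.mem_sup_of_normal_right.mp hg
  obtain ⟨b, c, hb, hc, ⟨m, hm, hcm⟩, hab⟩ := exists_decomp N hN P a ha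
  refine ⟨x * b, c, mul_mem hx hb, hc, ⟨m, hm, hcm⟩, ?_, ?_⟩
  · intro y hy
    have := hI y hy c hc m hm hcm
    rwa [commutatorElement_eq_one_iff_mul_comm] at this
  · rw [hab, mul_assoc]

/-- type I: the commutator subgroup of `P ⊔ N` lies in `P` -/
theorem comm_le_of_typeI [Finite G] {p : ℕ} [hp : Fact p.Prime] (N : Subgroup G) [N.Normal]
    (hN : ∀ x ∈ N, ∀ y ∈ N, x * y = y * x) (P : Sylow p G)
    (hI : ∀ x ∈ (P : Subgroup G), ∀ a ∈ N, ∀ m : ℕ, Nat.Coprime p m → a ^ m = 1 → ⁅x, a⁆ = 1) :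
    ⁅(P : Subgroup G) ⊔ N, (P : Subgroup G) ⊔ N⁆ ≤ (P : Subgroup G) := by
  rw [Subgroup.commutator_le]
  intro g hg h hh
  obtain ⟨b, c, hb, hc, -, hbc, rfl⟩ := sup_decomp N hN P hI g hg
  obtain ⟨b', c', hb', hc', -, hbc', rfl⟩ := sup_decomp N hN P hI h hh
  have e1 : b * c * (b' * c') = b * b' * (c * c') := by
    rw [mul_assoc, ← mul_assoc c b' c', ← hbc b' hb']
    group
  have e2 : b' * c' * (b * c) = b' * b * (c * c') := by
    rw [mul_assoc, ← mul_assoc c' b c, ← hbc' b hb, hN c hc c' hc']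
    group
  have e3 : ⁅b * c, b' * c'⁆ = (b * c * (b' * c')) * (b' * c' * (b * c))⁻¹ := by
    rw [commutatorElement_def]
    group
  rw [e3, e1, e2]
  have e4 : b * b' * (c * c') * (b' * b * (c * c'))⁻¹ = b * b' * (b' * b)⁻¹ := by group
  rw [e4]
  exact mul_mem (mul_mem hb hb') (inv_mem (mul_mem hb' hb))

/-- type I and `P ⊔ N` normal: `P` is normal -/
theorem normal_of_typeI [Finite G] {p : ℕ} [hp : Fact p.Prime] (N : Subgroup G) [N.Normal]
    (hN : ∀ x ∈ N, ∀ y ∈ N, x * y = y * x) (P : Sylow p G)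
    (hI : ∀ x ∈ (P : Subgroup G), ∀ a ∈ N, ∀ m : ℕ, Nat.Coprime p m → a ^ m = 1 → ⁅x, a⁆ = 1)
    (hPN : ((P : Subgroup G) ⊔ N).Normal) : (P : Subgroup G).Normal := by
  refine ⟨fun x hx g => ?_⟩
  have h1 : g * x * g⁻¹ ∈ (P : Subgroup G) ⊔ N :=
    hPN.conj_mem x (Subgroup.mem_sup_left hx) g
  obtain ⟨b, c, hb, hc, ⟨m, hm, hcm⟩, hbc, e⟩ := sup_decomp N hN P hI _ h1
  obtain ⟨k, hk⟩ := P.isPGroup' ⟨x, hx⟩
  have hxk : x ^ p ^ k = 1 := by
    have := congrArg Subtype.val hk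
    simpa using this
  obtain ⟨j, hj⟩ := P.isPGroup' ⟨b, hb⟩
  have hbj : b ^ p ^ j = 1 := by
    have := congrArg Subtype.val hj
    simpa using this
  have hcomm : Commute b c := hbc b hb
  have h2 : (b * c) ^ p ^ k = 1 := by rw [← e, conj_pow, hxk, mul_one, mul_inv_cancel]
  have h3 : c ^ p ^ (k + j) = 1 := by
    have h4 : (b * c) ^ p ^ (k + j) = 1 := by rw [pow_add, pow_mul, h2, one_pow]
    rw [hcomm.mul_pow] at h4
    have h5 : b ^ p ^ (k + j) = 1 := by rw [add_comm, pow_add, pow_mul, hbj, one_pow]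
    rwa [h5, one_mul] at h4
  have h6 : c = 1 := by
    have h7 := pow_gcd_eq_one.mpr ⟨h3, hcm⟩
    rwa [Nat.Coprime.gcd_eq_one (Nat.Coprime.pow_left _ hm), pow_one] at h7
  rw [e, h6, mul_one]
  exact hb

/-- a Sylow subgroup contained in an abelian normal subgroup is normal -/
theorem normal_of_comm [Finite G] {p : ℕ} [hp : Fact p.Prime] (P : Sylow p G) (N : Subgroup G)
    [N.Normal] (hPN : ((P : Subgroup G) ⊔ N).Normal)
    (hc : ⁅(P : Subgroup G) ⊔ N, (P : Subgroup G) ⊔ N⁆ = ⊥) : (P : Subgroup G).Normal := by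
  have hcomm : ∀ x ∈ (P : Subgroup G) ⊔ N, ∀ y ∈ (P : Subgroup G) ⊔ N, x * y = y * x := by
    intro x hx y hy
    have h1 : ⁅x, y⁆ ∈ (⊥ : Subgroup G) := hc ▸ Subgroup.commutator_mem_commutator hx hy
    rw [Subgroup.mem_bot, commutatorElement_eq_one_iff_mul_comm] at h1
    exact h1
  refine ⟨fun x hx g => ?_⟩
  obtain ⟨k, hk⟩ := P.isPGroup' ⟨x, hx⟩
  have hxk : x ^ p ^ k = 1 := by
    have := congrArg Subtype.val hk
    simpa using this
  have h1 : g * x * g⁻¹ ∈ (P : Subgroup G) ⊔ N :=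
    hPN.conj_mem x (Subgroup.mem_sup_left hx) g
  exact mem_sylow_of_mem ((P : Subgroup G) ⊔ N) hcomm P _ h1 k
    (by rw [conj_pow, hxk, mul_one, mul_inv_cancel])

end

end Pool.Agent.H76.TC
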