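import Pool.Agent.H76.TC.Pw

/-!
# [H76 TC Key] Representations of degree prime to `p`

The determinant trick and its consequences: if `χ` is irreducible of degree prime to `p`, `N` is an
abelian normal subgroup and `P` a `p`-subgroup with `P ⊔ N` normal, then `⁅P ⊔ N, N⁆` acts
trivially, and `⁅P ⊔ N, P ⊔ N⁆` acts trivially if `⁅P, P⁆ ≤ N`. If `P` is a normal `p`-subgroup,
`⁅P, P⁆` acts trivially.
-/

set_option autoImplicit false

namespace Pool.Agent.H76.TC

open Module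
open scoped commutatorElement

section trick

variable {G : Type} [Group G] {V : Type} [AddCommGroup V] [Module ℂ V] [FiniteDimensional ℂ V]

omit [FiniteDimensional ℂ V] in
theorem rho_injective (ρ : Representation ℂ G V) (g : G) : Function.Injective (ρ g) := by
  intro a b hab
  have : ρ g⁻¹ (ρ g a) = ρ g⁻¹ (ρ g b) := by rw [hab]
  rwa [← Module.End.mul_apply, ← Module.End.mul_apply, ← map_mul, inv_mul_cancel, map_one,
    Module.End.one_apply, Module.End.one_apply] at this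

/-- The determinant trick: if `x` and `y` commute on `W` up to a scalar whose order is a power of
`p`, and the dimension of `W` is prime to `p`, then they commute on `W`. -/
theorem scalar_eq_one (ρ : Representation ℂ G V) (W : Submodule ℂ V) (p : ℕ) [hp : Fact p.Prime]
    (hW : ¬ p ∣ finrank ℂ W) (x y : G) (hx : ∀ v ∈ W, ρ x v ∈ W) (hy : ∀ v ∈ W, ρ y v ∈ W)
    (c : ℂ) (hc : ∀ v ∈ W, ρ (x * y) v = c • ρ (y * x) v) (k : ℕ) (hk : c ^ p ^ k = 1) :
    c = 1 := by
  let A : W →ₗ[ℂ] W := (ρ x).restrict hx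
  let B : W →ₗ[ℂ] W := (ρ y).restrict hy
  have hA : LinearMap.det A ≠ 0 := by
    have hi : Function.Injective A := by
      intro a b hab
      apply Subtype.ext
      apply rho_injective ρ x
      exact congrArg Subtype.val hab
    have : IsUnit A := (LinearMap.isUnit_iff_ker_eq_bot A).mpr (LinearMap.ker_eq_bot.mpr hi)
    exact ((LinearMap.isUnit_det A) this).ne_zero
  have hB : LinearMap.det B ≠ 0 := by
    have hi : Function.Injective B := by
      intro a b hab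
      apply Subtype.ext
      apply rho_injective ρ y
      exact congrArg Subtype.val hab
    have : IsUnit B := (LinearMap.isUnit_iff_ker_eq_bot B).mpr (LinearMap.ker_eq_bot.mpr hi)
    exact ((LinearMap.isUnit_det B) this).ne_zero
  have hAB : A * B = c • (B * A) := by
    ext v
    have h := hc v v.2
    rw [map_mul, map_mul, Module.End.mul_apply, Module.End.mul_apply] at h
    exact h
  have hdet : LinearMap.det A * LinearMap.det B =
      c ^ finrank ℂ W * (LinearMap.det B * LinearMap.det A) := by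
    rw [← map_mul, ← map_mul, hAB, LinearMap.det_smul]
  have hcn : c ^ finrank ℂ W = 1 := by
    have h1 : LinearMap.det B * LinearMap.det A ≠ 0 := mul_ne_zero hB hA
    have h2 : (c ^ finrank ℂ W - 1) * (LinearMap.det B * LinearMap.det A) = 0 := by
      rw [sub_mul, one_mul, ← hdet]
      ring
    rcases mul_eq_zero.mp h2 with h3 | h3
    · exact sub_eq_zero.mp h3
    · exact absurd h3 h1
  have hco : Nat.gcd (finrank ℂ W) (p ^ k) = 1 := by
    have : Nat.Coprime (finrank ℂ W) p := (Nat.Coprime.symm ((hp.out.coprime_iff_not_dvd).mpr hW))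
    exact Nat.Coprime.pow_right k this
  have h := pow_gcd_eq_one.mpr ⟨hcn, hk⟩
  rwa [hco, pow_one] at h

end trick

section key

variable {G : Type} [Group G]

/-- common part: a `P`-invariant weight, with a nonzero vector -/
theorem fixed_weight_vec {V : Type} [AddCommGroup V] [Module ℂ V] [FiniteDimensional ℂ V]
    (ρ : Representation ℂ G V) (p : ℕ) [Fact p.Prime]
    (N : Subgroup G) [N.Normal] [Finite N] (hN : ∀ x ∈ N, ∀ y ∈ N, x * y = y * x)
    (P : Subgroup G) (hP : IsPGroup p P) (hV : ¬ p ∣ finrank ℂ V) :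
    ∃ lam : N →* ℂˣ, ¬ p ∣ finrank ℂ (wt ρ N lam) ∧ (∃ v ∈ wt ρ N lam, v ≠ 0) ∧
      (∀ x ∈ P, ∀ v ∈ wt ρ N lam, ρ x v ∈ wt ρ N lam) := by
  obtain ⟨lam, h1, h2⟩ := exists_fixed_weight ρ p N hN P hP hV
  refine ⟨lam, h1, ?_, ?_⟩
  · by_contra hcon
    push Not at hcon
    apply h1
    have : wt ρ N lam = ⊥ := by
      rw [eq_bot_iff]
      intro v hv
      exact (Submodule.mem_bot ℂ).mpr (hcon v hv)
    rw [this, finrank_bot]
    exact dvd_zero p
  · intro x hx v hv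
    have := map_wt ρ N x lam hv
    rwa [h2 x hx] at this

/-- a stable weight space is stable under `P ⊔ N` -/
theorem stable_sup {V : Type} [AddCommGroup V] [Module ℂ V]
    (ρ : Representation ℂ G V) (N : Subgroup G) [N.Normal] (P : Subgroup G) (lam : N →* ℂˣ)
    (hs : ∀ x ∈ P, ∀ v ∈ wt ρ N lam, ρ x v ∈ wt ρ N lam) :
    ∀ g ∈ P ⊔ N, ∀ v ∈ wt ρ N lam, ρ g v ∈ wt ρ N lam := by
  intro g hg v hv
  obtain ⟨x, hx, a, ha, rfl⟩ := Subgroup.mem_sup_of_normal_right.mp hg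
  rw [map_mul, Module.End.mul_apply]
  have h1 : ρ a v = ((lam ⟨a, ha⟩ : ℂˣ) : ℂ) • v := hv ⟨a, ha⟩
  rw [h1, map_smul]
  exact Submodule.smul_mem _ _ (hs x hx v hv)

/-- `⁅P ⊔ N, N⁆` acts trivially on an irreducible representation of degree prime to `p`. -/
theorem Irr.comm_trivial (χ : Irr G) (p : ℕ) [Fact p.Prime] (N : Subgroup G) [N.Normal] [Finite N]
    (hN : ∀ x ∈ N, ∀ y ∈ N, x * y = y * x) (P : Subgroup G) (hP : IsPGroup p P)
    (hPN : (P ⊔ N).Normal) (hV : ¬ p ∣ χ.degree) :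
    ∀ d ∈ ⁅P ⊔ N, N⁆, ∀ w : χ.V, χ.ρ d w = w := by
  obtain ⟨lam, _, ⟨v, hv, hv0⟩, hs⟩ := fixed_weight_vec χ.ρ p N hN P hP hV
  have hs' := stable_sup χ.ρ N P lam hs
  apply χ.trivial_of_fixed ⁅P ⊔ N, N⁆ v hv0
  -- the subgroup of elements acting trivially on the weight space
  let K : Subgroup G :=
    { carrier := {g | ∀ w ∈ wt χ.ρ N lam, χ.ρ g w = w}
      mul_mem' := by
        intro a b ha hb w hw
        rw [map_mul, Module.End.mul_apply, hb w hw, ha w hw]
      one_mem' := by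
        intro w _
        rw [map_one, Module.End.one_apply]
      inv_mem' := by
        intro a ha w hw
        have h1 := ha w hw
        calc χ.ρ a⁻¹ w = χ.ρ a⁻¹ (χ.ρ a w) := by rw [h1]
          _ = w := by
            rw [← Module.End.mul_apply, ← map_mul, inv_mul_cancel, map_one, Module.End.one_apply] }
  have hK : ⁅P ⊔ N, N⁆ ≤ K := by
    rw [Subgroup.commutator_le]
    intro g hg n hn w hw
    rw [commutatorElement_def]
    have hg' : g⁻¹ ∈ P ⊔ N := inv_mem hg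
    have hn' : n⁻¹ ∈ N := inv_mem hn
    -- u = n⁻¹ w
    have e1 : χ.ρ n⁻¹ w = ((lam ⟨n⁻¹, hn'⟩ : ℂˣ) : ℂ) • w := hw ⟨n⁻¹, hn'⟩
    have hgw : χ.ρ g⁻¹ w ∈ wt χ.ρ N lam := hs' _ hg' w hw
    have e2 : χ.ρ n (χ.ρ g⁻¹ w) = ((lam ⟨n, hn⟩ : ℂˣ) : ℂ) • χ.ρ g⁻¹ w := hgw ⟨n, hn⟩
    rw [map_mul, map_mul, map_mul, Module.End.mul_apply, Module.End.mul_apply,
      Module.End.mul_apply, e1, map_smul, map_smul, map_smul, e2, map_smul]
    rw [← Module.End.mul_apply (χ.ρ g) (χ.ρ g⁻¹), ← map_mul, mul_inv_cancel, map_one,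
      Module.End.one_apply, smul_smul, ← Units.val_mul, ← map_mul]
    have : (⟨n⁻¹, hn'⟩ : N) * ⟨n, hn⟩ = 1 := Subtype.ext (inv_mul_cancel n)
    rw [this, map_one, Units.val_one, one_smul]
  intro d hd
  exact hK hd v hv

/-- `⁅P ⊔ N, P ⊔ N⁆` acts trivially on an irreducible representation of degree prime to `p` if
`⁅P, P⁆ ≤ N`. -/
theorem Irr.comm_trivial' (χ : Irr G) (p : ℕ) [Fact p.Prime] (N : Subgroup G) [N.Normal] [Finite N]
    (hN : ∀ x ∈ N, ∀ y ∈ N, x * y = y * x) (P : Subgroup G) (hP : IsPGroup p P)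
    (hPN : (P ⊔ N).Normal) (hc : ⁅P, P⁆ ≤ N) (hV : ¬ p ∣ χ.degree) :
    ∀ d ∈ ⁅P ⊔ N, P ⊔ N⁆, ∀ w : χ.V, χ.ρ d w = w := by
  obtain ⟨lam, h1, ⟨v, hv, hv0⟩, hs⟩ := fixed_weight_vec χ.ρ p N hN P hP hV
  have hs' := stable_sup χ.ρ N P lam hs
  apply χ.trivial_of_fixed ⁅P ⊔ N, P ⊔ N⁆ v hv0
  let K : Subgroup G :=
    { carrier := {g | ∀ w ∈ wt χ.ρ N lam, χ.ρ g w = w}
      mul_mem' := by
        intro a b ha hb w hw
        rw [map_mul, Module.End.mul_apply, hb w hw, ha w hw]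
      one_mem' := by
        intro w _
        rw [map_one, Module.End.one_apply]
      inv_mem' := by
        intro a ha w hw
        have h1 := ha w hw
        calc χ.ρ a⁻¹ w = χ.ρ a⁻¹ (χ.ρ a w) := by rw [h1]
          _ = w := by
            rw [← Module.End.mul_apply, ← map_mul, inv_mul_cancel, map_one, Module.End.one_apply] }
  -- elements of P commute on the weight space
  have hPP : ∀ x ∈ P, ∀ y ∈ P, ∀ w ∈ wt χ.ρ N lam, χ.ρ (x * y) w = χ.ρ (y * x) w := by
    intro x hx y hy w hw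
    have hcm : ⁅x, y⁆ ∈ N := hc (Subgroup.commutator_mem_commutator hx hy)
    have hcP : ⁅x, y⁆ ∈ P := by
      rw [commutatorElement_def]
      exact mul_mem (mul_mem (mul_mem hx hy) (inv_mem hx)) (inv_mem hy)
    obtain ⟨k, hk⟩ := hP ⟨⁅x, y⁆, hcP⟩
    have hk' : ⁅x, y⁆ ^ p ^ k = 1 := by
      have := congrArg Subtype.val hk
      simpa using this
    have hmem : ∀ u ∈ wt χ.ρ N lam,
        χ.ρ (x * y) u = ((lam ⟨⁅x, y⁆, hcm⟩ : ℂˣ) : ℂ) • χ.ρ (y * x) u := by
      intro u hu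
      have hyx : χ.ρ (y * x) u ∈ wt χ.ρ N lam := by
        rw [map_mul, Module.End.mul_apply]
        exact hs y hy _ (hs x hx u hu)
      have e : χ.ρ ⁅x, y⁆ (χ.ρ (y * x) u) =
        ((lam ⟨⁅x, y⁆, hcm⟩ : ℂˣ) : ℂ) • χ.ρ (y * x) u := hyx ⟨⁅x, y⁆, hcm⟩
      rw [← e, ← Module.End.mul_apply, ← map_mul]
      congr 2
      rw [commutatorElement_def]
      group
    have hone : ((lam ⟨⁅x, y⁆, hcm⟩ : ℂˣ) : ℂ) = 1 := by
      apply scalar_eq_one χ.ρ (wt χ.ρ N lam) p h1 x y (hs x hx) (hs y hy) _ hmem k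
      rw [← Units.val_pow_eq_pow_val, ← map_pow]
      have : (⟨⁅x, y⁆, hcm⟩ : N) ^ p ^ k = 1 := Subtype.ext (by simpa using hk')
      rw [this, map_one, Units.val_one]
    rw [hmem w hw, hone, one_smul]
  have hcomm : ∀ g ∈ P ⊔ N, ∀ h ∈ P ⊔ N, ∀ w ∈ wt χ.ρ N lam, χ.ρ (g * h) w = χ.ρ (h * g) w := by
    intro g hg h hh w hw
    obtain ⟨x, hx, a, ha, rfl⟩ := Subgroup.mem_sup_of_normal_right.mp hg
    obtain ⟨y, hy, b, hb, rfl⟩ := Subgroup.mem_sup_of_normal_right.mp hh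
    have ea : ∀ u ∈ wt χ.ρ N lam, χ.ρ a u = ((lam ⟨a, ha⟩ : ℂˣ) : ℂ) • u := fun u hu => hu ⟨a, ha⟩
    have eb : ∀ u ∈ wt χ.ρ N lam, χ.ρ b u = ((lam ⟨b, hb⟩ : ℂˣ) : ℂ) • u := fun u hu => hu ⟨b, hb⟩
    have hxy := hPP x hx y hy w hw
    rw [map_mul, map_mul, Module.End.mul_apply] at hxy
    simp only [map_mul, Module.End.mul_apply]
    rw [eb w hw, map_smul, map_smul, map_smul, ea _ (hs y hy w hw), map_smul,
      ea w hw, map_smul, map_smul, map_smul, eb _ (hs x hx w hw), map_smul, hxy,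
      Module.End.mul_apply, smul_comm]
  have hK : ⁅P ⊔ N, P ⊔ N⁆ ≤ K := by
    rw [Subgroup.commutator_le]
    intro g hg h hh w hw
    rw [commutatorElement_def]
    have hu : χ.ρ (g⁻¹ * h⁻¹) w ∈ wt χ.ρ N lam :=
      hs' _ (mul_mem (inv_mem hg) (inv_mem hh)) w hw
    have e1 : χ.ρ (g * h * g⁻¹ * h⁻¹) w = χ.ρ (g * h) (χ.ρ (g⁻¹ * h⁻¹) w) := by
      rw [← Module.End.mul_apply, ← map_mul]
      congr 2
      group
    rw [e1, hcomm g hg h hh _ hu, ← Module.End.mul_apply, ← map_mul]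
    have : h * g * (g⁻¹ * h⁻¹) = 1 := by group
    rw [this, map_one, Module.End.one_apply]
  intro d hd
  exact hK hd v hv

end key

end Pool.Agent.H76.TC
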