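import Pool.Agent.H76.TC.Ex

/-!
# [H76 TC Lam] One weight that is nontrivial on many normal subgroups

`N` is a finite abelian normal subgroup of `G`. For primes `p` of a finite set there are subgroups
`E p ≤ N`. Type I: `E p` is a nontrivial `p`-group. Type II: there is a `p`-subgroup `P p` of `G`
with `⁅P p, N⁆ ≤ E p`, which does not centralise the elements of `N` of order prime to `p`. Then
ONE homomorphism `N →* ℂˣ` is nontrivial on all the `E p`.
-/

set_option autoImplicit false

namespace Pool.Agent.H76.TC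

open Module
open scoped commutatorElement

section

variable {G : Type} [Group G]

/-- `lam` is nontrivial on `E` -/
def NonTriv (N : Subgroup G) (E : Subgroup G) (lam : N →* ℂˣ) : Prop :=
  ∃ n : N, (n : G) ∈ E ∧ lam n ≠ 1

theorem units_eq_one {c : ℂˣ} {a b : ℕ} (hab : Nat.Coprime a b) (ha : c ^ a = 1) (hb : c ^ b = 1) :
    c = 1 := by
  have h := pow_gcd_eq_one.mpr ⟨ha, hb⟩
  rwa [Nat.Coprime.gcd_eq_one hab, pow_one] at h

theorem exists_char_ne {N : Subgroup G} [Finite N] (hN : ∀ x ∈ N, ∀ y ∈ N, x * y = y * x)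
    {g : N} (hg : g ≠ 1) : ∃ mu : N →* ℂˣ, mu g ≠ 1 := by
  let _ : CommGroup N :=
    { (inferInstance : Group N) with
      mul_comm := fun a b => Subtype.ext (hN a a.2 b b.2) }
  exact CommGroup.exists_apply_ne_one_of_hasEnoughRootsOfUnity N ℂ hg

/-- type I -/
theorem exists_typeI (N : Subgroup G) [Finite N] (hN : ∀ x ∈ N, ∀ y ∈ N, x * y = y * x)
    (S : Finset ℕ) (hS : ∀ p ∈ S, p.Prime) (E : ℕ → Subgroup G)
    (hE : ∀ p ∈ S, E p ≤ N) (hEp : ∀ p ∈ S, IsPGroup p (E p)) (hE1 : ∀ p ∈ S, E p ≠ ⊥) :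
    ∃ lam : N →* ℂˣ, ∀ p ∈ S, NonTriv N (E p) lam := by
  classical
  induction S using Finset.induction_on with
  | empty => exact ⟨1, by simp⟩
  | insert p S hpS ih =>
    obtain ⟨lam, hlam⟩ := ih (fun q hq => hS q (Finset.mem_insert_of_mem hq))
      (fun q hq => hE q (Finset.mem_insert_of_mem hq))
      (fun q hq => hEp q (Finset.mem_insert_of_mem hq))
      (fun q hq => hE1 q (Finset.mem_insert_of_mem hq))
    by_cases hp0 : NonTriv N (E p) lam
    · refine ⟨lam, fun q hq => ?_⟩
      rcases Finset.mem_insert.mp hq with h | h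
      · rw [h]; exact hp0
      · exact hlam q h
    have hp := hS p (Finset.mem_insert_self p S)
    have hpE := hE p (Finset.mem_insert_self p S)
    obtain ⟨g, hg⟩ := (Subgroup.ne_bot_iff_exists_ne_one.mp (hE1 p (Finset.mem_insert_self p S)))
    · have hgN : (g : G) ∈ N := hpE g.2
      let gN : N := ⟨g, hgN⟩
      have hgN1 : gN ≠ 1 := by
        intro h
        exact hg (Subtype.ext (show (g : G) = 1 from congrArg (fun t : N => (t : G)) h))
      obtain ⟨mu', hmu'⟩ := exists_char_ne hN hgN1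
      -- m = prime-to-p part of the order
      obtain ⟨k, m, hpm, hcard⟩ : ∃ k m : ℕ, ¬ p ∣ m ∧ Nat.card N = p ^ k * m :=
        ⟨(Nat.card N).factorization p, Nat.card N / p ^ (Nat.card N).factorization p,
          Nat.not_dvd_ordCompl hp Nat.card_pos.ne', (Nat.ordProj_mul_ordCompl_eq_self _ _).symm⟩
      have hcop : Nat.Coprime p m := (hp.coprime_iff_not_dvd).mpr hpm
      let mu : N →* ℂˣ := mu' ^ m
      have hmug : mu gN ≠ 1 := by
        intro h
        apply hmu'
        obtain ⟨j, hj⟩ := hEp p (Finset.mem_insert_self p S) g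
        have h1 : mu' gN ^ p ^ j = 1 := by
          rw [← map_pow]
          have : gN ^ p ^ j = 1 := Subtype.ext (by
            have := congrArg Subtype.val hj
            simpa using this)
          rw [this, map_one]
        exact units_eq_one (Nat.Coprime.pow_left j hcop) h1 h
      refine ⟨lam * mu, fun q hq => ?_⟩
      rcases Finset.mem_insert.mp hq with h | h
      · rw [h]
        refine ⟨gN, g.2, ?_⟩
        have hlg : lam gN = 1 := by
          by_contra hne
          exact hp0 ⟨gN, g.2, hne⟩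
        rw [MonoidHom.mul_apply, hlg, one_mul]
        exact hmug
      · obtain ⟨n, hn, hn1⟩ := hlam q h
        refine ⟨n, hn, ?_⟩
        have hqp : q.Prime := hS q hq
        have hne : q ≠ p := by
          intro e
          exact hpS (e ▸ h)
        obtain ⟨j, hj⟩ := hEp q hq ⟨n, hn⟩
        have hnj : n ^ q ^ j = 1 := Subtype.ext (by
            have := congrArg Subtype.val hj
            simpa using this)
        have hnm : n ^ m = 1 := by
          have h1 : n ^ (p ^ k * m) = 1 := by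
            rw [← hcard]
            exact pow_card_eq_one'
          rw [pow_mul, pow_right_comm] at h1
          -- (n ^ m) ^ p ^ k = 1 and (n ^ m) ^ q ^ j = 1
          have h2 : (n ^ m) ^ q ^ j = 1 := by rw [← pow_mul, mul_comm, pow_mul, hnj, one_pow]
          have hco : Nat.gcd (p ^ k) (q ^ j) = 1 :=
            Nat.Coprime.gcd_eq_one (Nat.Coprime.pow k j ((Nat.coprime_primes hp hqp).mpr hne.symm))
          have h3 := pow_gcd_eq_one.mpr ⟨h1, h2⟩
          rwa [hco, pow_one] at h3
        have hmun : mu n = 1 := by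
          show (mu' ^ m) n = 1
          rw [MonoidHom.pow_apply, ← map_pow, hnm, map_one]
        rw [MonoidHom.mul_apply, hmun, mul_one]
        exact hn1

/-- the averaged character: trivial on average over `P`-orbits -/
noncomputable def avg (N : Subgroup G) [N.Normal] (P : Subgroup G) [Fintype P] (mu : N →* ℂˣ) :
    N →* ℂˣ :=
  mu ^ Fintype.card P * (∏ g : P, conjW N (g : G) mu)⁻¹

theorem avg_apply (N : Subgroup G) [N.Normal] (P : Subgroup G) [Fintype P] (mu : N →* ℂˣ) (n : N) :
    avg N P mu n = mu n ^ Fintype.card P * (∏ g : P, mu (MulAut.conjNormal (g : G)⁻¹ n))⁻¹ := by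
  unfold avg
  rw [MonoidHom.mul_apply, MonoidHom.pow_apply, MonoidHom.inv_apply, MonoidHom.finsetProd_apply]
  rfl

theorem prod_avg (N : Subgroup G) [N.Normal] (P : Subgroup G) [Fintype P] (mu : N →* ℂˣ) (u : N) :
    ∏ g : P, avg N P mu (MulAut.conjNormal (g : G) u) = 1 := by
  simp_rw [avg_apply]
  rw [Finset.prod_mul_distrib, Finset.prod_inv_distrib, Finset.prod_comm, Finset.prod_pow]
  have h : ∀ h : P, ∏ g : P, mu (MulAut.conjNormal (h : G)⁻¹ (MulAut.conjNormal (g : G) u)) =
      ∏ g : P, mu (MulAut.conjNormal (g : G) u) := by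
    intro h
    rw [← Equiv.prod_comp (Equiv.mulLeft h⁻¹) (fun g : P => mu (MulAut.conjNormal (g : G) u))]
    apply Finset.prod_congr rfl
    intro g _
    rw [Equiv.coe_mulLeft, Subgroup.coe_mul, map_mul, Subgroup.coe_inv]
    rfl
  rw [Finset.prod_congr rfl (fun g _ => h g), Finset.prod_const, Finset.card_univ,
    mul_inv_cancel]

theorem avg_comm (N : Subgroup G) [N.Normal] (P : Subgroup G) [Fintype P] (mu : N →* ℂˣ)
    (x : P) (a n0 : N) (h : n0 = MulAut.conjNormal (x : G) a * a⁻¹) :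
    avg N P mu n0 = mu n0 ^ Fintype.card P := by
  rw [avg_apply]
  have h1 : ∏ g : P, mu (MulAut.conjNormal (g : G)⁻¹ n0) = 1 := by
    have h2 : ∀ g : P, mu (MulAut.conjNormal (g : G)⁻¹ n0) =
        mu (MulAut.conjNormal ((x⁻¹ * g : P) : G)⁻¹ a) * (mu (MulAut.conjNormal (g : G)⁻¹ a))⁻¹ := by
      intro g
      have e1 : MulAut.conjNormal (g : G)⁻¹ (MulAut.conjNormal (x : G) a) =
          MulAut.conjNormal ((x⁻¹ * g : P) : G)⁻¹ a := by
        rw [Subgroup.coe_mul, Subgroup.coe_inv, mul_inv_rev, inv_inv, map_mul]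
        rfl
      have e2 : MulAut.conjNormal (g : G)⁻¹ n0 =
          MulAut.conjNormal ((x⁻¹ * g : P) : G)⁻¹ a * (MulAut.conjNormal (g : G)⁻¹ a)⁻¹ := by
        rw [h, MulEquiv.map_mul, e1, MulEquiv.map_inv]
      rw [e2, MonoidHom.map_mul]
      congr 1
      exact map_inv mu _
    rw [Finset.prod_congr rfl (fun g _ => h2 g), Finset.prod_mul_distrib, Finset.prod_inv_distrib,
      ← Equiv.prod_comp (Equiv.mulLeft x⁻¹) (fun g : P => mu (MulAut.conjNormal (g : G)⁻¹ a))]
    simp only [Equiv.coe_mulLeft]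
    exact mul_inv_cancel _
  rw [h1, inv_one, mul_one]

/-- type II, one step -/
theorem step_typeII [Finite G] (N : Subgroup G) [N.Normal]
    (hN : ∀ x ∈ N, ∀ y ∈ N, x * y = y * x) (R : Finset ℕ) (E : ℕ → Subgroup G)
    (hEn : ∀ q ∈ R, (E q).Normal) (lam : N →* ℂˣ) (hlam : ∀ q ∈ R, NonTriv N (E q) lam)
    (p : ℕ) (hp : p.Prime) (P E0 : Subgroup G) (hP : IsPGroup p P)
    (hc : ∀ x ∈ P, ∀ a ∈ N, ⁅x, a⁆ ∈ E0)
    (hne : ∃ x ∈ P, ∃ a ∈ N, ∃ m : ℕ, Nat.Coprime p m ∧ a ^ m = 1 ∧ ⁅x, a⁆ ≠ 1) :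
    ∃ lam' : N →* ℂˣ, NonTriv N E0 lam' ∧ ∀ q ∈ R, NonTriv N (E q) lam' := by
  classical
  by_cases h0 : NonTriv N E0 lam
  · exact ⟨lam, h0, hlam⟩
  have htriv : ∀ n : N, (n : G) ∈ E0 → lam n = 1 := by
    intro n hn
    by_contra h
    exact h0 ⟨n, hn, h⟩
  obtain ⟨x, hx, a, ha, m0, hm0, ham, hxa⟩ := hne
  have : Fintype P := Fintype.ofFinite P
  let aN : N := ⟨a, ha⟩
  let n0 : N := MulAut.conjNormal x aN * aN⁻¹
  have hn0 : (n0 : G) = ⁅x, a⁆ := by
    rw [commutatorElement_def]
    show ((MulAut.conjNormal x aN : N) : G) * a⁻¹ = _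
    rw [MulAut.conjNormal_apply]
  have hn01 : n0 ≠ 1 := by
    intro h
    apply hxa
    rw [← hn0, h]
    rfl
  obtain ⟨mu', hmu'⟩ := exists_char_ne hN hn01
  obtain ⟨k, m, hpm, hcard⟩ : ∃ k m : ℕ, ¬ p ∣ m ∧ Nat.card N = p ^ k * m :=
    ⟨(Nat.card N).factorization p, Nat.card N / p ^ (Nat.card N).factorization p,
      Nat.not_dvd_ordCompl hp Nat.card_pos.ne', (Nat.ordProj_mul_ordCompl_eq_self _ _).symm⟩
  have hcop : Nat.Coprime p m := (hp.coprime_iff_not_dvd).mpr hpm
  have : Fact p.Prime := ⟨hp⟩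
  obtain ⟨e, he⟩ := (IsPGroup.iff_card).mp hP
  have hcardP : Fintype.card P = p ^ e := by rw [← Nat.card_eq_fintype_card, he]
  let mu : N →* ℂˣ := avg N P mu' ^ p ^ k
  -- mu is trivial on p-elements
  have hmup : ∀ n : N, n ^ p ^ k = 1 → mu n = 1 := by
    intro n hn
    show (avg N P mu' ^ p ^ k) n = 1
    rw [MonoidHom.pow_apply, ← map_pow, hn, map_one]
  -- n0 has order prime to p
  have hn0m : n0 ^ m0 = 1 := by
    have hcm : Commute (MulAut.conjNormal x aN : N) aN⁻¹ :=
      Subtype.ext (hN _ (MulAut.conjNormal x aN : N).2 _ (aN⁻¹).2)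
    rw [hcm.mul_pow, ← map_pow, inv_pow]
    have : aN ^ m0 = 1 := Subtype.ext ham
    rw [this, map_one, inv_one, one_mul]
  have hmun0 : mu n0 ≠ 1 := by
    intro h
    apply hmu'
    have h1 : (avg N P mu' ^ p ^ k) n0 = 1 := h
    rw [MonoidHom.pow_apply, avg_comm N P mu' ⟨x, hx⟩ aN n0 rfl, hcardP, ← pow_mul, ← pow_add] at h1
    have h2 : mu' n0 ^ m0 = 1 := by rw [← map_pow, hn0m, map_one]
    exact units_eq_one (Nat.Coprime.pow_left (e + k) hm0) h1 h2
  have hxE : (n0 : G) ∈ E0 := by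
    rw [hn0]
    exact hc x hx a ha
  refine ⟨lam * mu, ⟨n0, hxE, ?_⟩, fun q hq => ?_⟩
  · rw [MonoidHom.mul_apply, htriv n0 hxE, one_mul]
    exact hmun0
  · obtain ⟨n, hn, hn1⟩ := hlam q hq
    have hnc : n ^ (p ^ k * m) = 1 := by
      rw [← hcard]
      exact pow_card_eq_one'
    by_cases hnm : lam (n ^ m) = 1
    · -- the p'-part
      let u : N := n ^ p ^ k
      have hum : u ^ m = 1 := by
        show (n ^ p ^ k) ^ m = 1
        rw [← pow_mul]
        exact hnc
      have hlu : lam u ≠ 1 := by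
        intro h
        apply hn1
        have h1 : lam n ^ p ^ k = 1 := by rw [← map_pow]; exact h
        have h2 : lam n ^ m = 1 := by rw [← map_pow]; exact hnm
        exact units_eq_one (Nat.Coprime.pow_left k hcop) h1 h2
      by_contra hcon
      apply hlu
      have huE : (u : G) ∈ E q := by
        show ((n ^ p ^ k : N) : G) ∈ E q
        rw [Subgroup.coe_pow]
        exact pow_mem hn _
      have hEq := hEn q hq
      have h3 : ∀ g : P, mu (MulAut.conjNormal (g : G) u) = (lam u)⁻¹ := by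
        intro g
        have hgE : ((MulAut.conjNormal (g : G) u : N) : G) ∈ E q := by
          rw [MulAut.conjNormal_apply]
          exact hEq.conj_mem _ huE g
        have h4 : (lam * mu) (MulAut.conjNormal (g : G) u) = 1 := by
          by_contra h
          exact hcon ⟨_, hgE, h⟩
        rw [MonoidHom.mul_apply] at h4
        have h5 : lam (MulAut.conjNormal (g : G) u) = lam u := by
          have h6 : ((MulAut.conjNormal (g : G) u * u⁻¹ : N) : G) ∈ E0 := by
            have h7 := hc g g.2 u u.2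
            rw [commutatorElement_def] at h7
            rw [Subgroup.coe_mul, MulAut.conjNormal_apply, Subgroup.coe_inv]
            exact h7
          have h8 := htriv _ h6
          rw [map_mul, map_inv] at h8
          exact mul_inv_eq_one.mp h8
        rw [h5] at h4
        exact eq_inv_of_mul_eq_one_right h4
      have h9 : ∏ g : P, mu (MulAut.conjNormal (g : G) u) = 1 := by
        show ∏ g : P, (avg N P mu' ^ p ^ k) (MulAut.conjNormal (g : G) u) = 1
        simp_rw [MonoidHom.pow_apply]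
        rw [Finset.prod_pow, prod_avg, one_pow]
      rw [Finset.prod_congr rfl (fun g _ => h3 g), Finset.prod_const, Finset.card_univ, hcardP,
        inv_pow, inv_eq_one] at h9
      have h10 : lam u ^ m = 1 := by rw [← map_pow, hum, map_one]
      exact units_eq_one (Nat.Coprime.pow_left e hcop) h9 h10
    · refine ⟨n ^ m, ?_, ?_⟩
      · rw [Subgroup.coe_pow]
        exact pow_mem hn _
      · rw [MonoidHom.mul_apply, hmup (n ^ m) (by rw [← pow_mul, mul_comm]; exact hnc), mul_one]
        exact hnm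

/-- Existence of one weight for type I and type II primes together. -/
theorem exists_lam [Finite G] (N : Subgroup G) [N.Normal]
    (hN : ∀ x ∈ N, ∀ y ∈ N, x * y = y * x) (S T : Finset ℕ)
    (hS : ∀ p ∈ S, p.Prime) (hT : ∀ p ∈ T, p.Prime) (E P : ℕ → Subgroup G)
    (hEn : ∀ p ∈ S ∪ T, (E p).Normal)
    (hE : ∀ p ∈ S, E p ≤ N) (hEp : ∀ p ∈ S, IsPGroup p (E p)) (hE1 : ∀ p ∈ S, E p ≠ ⊥)
    (hP : ∀ p ∈ T, IsPGroup p (P p))
    (hc : ∀ p ∈ T, ∀ x ∈ P p, ∀ a ∈ N, ⁅x, a⁆ ∈ E p)
    (hne : ∀ p ∈ T, ∃ x ∈ P p, ∃ a ∈ N, ∃ m : ℕ, Nat.Coprime p m ∧ a ^ m = 1 ∧ ⁅x, a⁆ ≠ 1) :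
    ∃ lam : N →* ℂˣ, ∀ p ∈ S ∪ T, NonTriv N (E p) lam := by
  classical
  obtain ⟨lam0, h0⟩ := exists_typeI N hN S hS E hE hEp hE1
  have key : ∀ T' : Finset ℕ, T' ⊆ T → ∃ lam : N →* ℂˣ, ∀ p ∈ S ∪ T', NonTriv N (E p) lam := by
    intro T'
    induction T' using Finset.induction_on with
    | empty =>
      intro _
      exact ⟨lam0, by simpa using h0⟩
    | insert p T' _ ih =>
      intro hsub
      obtain ⟨lam, hlam⟩ := ih (fun q hq => hsub (Finset.mem_insert_of_mem hq))
      have hpT : p ∈ T := hsub (Finset.mem_insert_self p T')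
      obtain ⟨lam', h1, h2⟩ := step_typeII N hN (S ∪ T') E
        (fun q hq => hEn q (by
          rcases Finset.mem_union.mp hq with h | h
          · exact Finset.mem_union_left _ h
          · exact Finset.mem_union_right _ (hsub (Finset.mem_insert_of_mem h))))
        lam hlam p (hT p hpT) (P p) (E p) (hP p hpT) (hc p hpT) (hne p hpT)
      refine ⟨lam', fun q hq => ?_⟩
      rw [Finset.union_insert] at hq
      rcases Finset.mem_insert.mp hq with h | h
      · rw [h]; exact h1
      · exact h2 q h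
  exact key T (Finset.Subset.refl T)

end

end Pool.Agent.H76.TC
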