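import Pool.Agent.H76.TC.Key

/-!
# [H76 TC Pg] Normal `p`-subgroups and degrees prime to `p`

A finite `p`-group acting on a complex space of dimension prime to `p` has a nonzero vector fixed
by its commutator subgroup. So if `P` is a normal `p`-subgroup of `G` and `χ` has degree prime to
`p`, then `⁅P, P⁆` acts trivially.
-/

set_option autoImplicit false

namespace Pool.Agent.H76.TC

open Module
open scoped commutatorElement

/-- restriction of a representation to a stable subspace -/
noncomputable def restr {G : Type} [Group G] {V : Type} [AddCommGroup V] [Module ℂ V]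
    (ρ : Representation ℂ G V) (W : Submodule ℂ V) (hW : ∀ g : G, ∀ v ∈ W, ρ g v ∈ W) :
    Representation ℂ G W where
  toFun g := (ρ g).restrict (hW g)
  map_one' := by ext; simp
  map_mul' x y := by ext; simp

theorem restr_apply {G : Type} [Group G] {V : Type} [AddCommGroup V] [Module ℂ V]
    (ρ : Representation ℂ G V) (W : Submodule ℂ V) (hW : ∀ g : G, ∀ v ∈ W, ρ g v ∈ W)
    (g : G) (w : W) : ((restr ρ W hW g w : W) : V) = ρ g w := rfl

theorem pgroup_fixed_aux {P : Type} [Group P] [Finite P] (p : ℕ) [hp : Fact p.Prime]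
    (hP : IsPGroup p P) : ∀ n : ℕ, ∀ (V : Type) [AddCommGroup V] [Module ℂ V]
    [FiniteDimensional ℂ V] (ρ : Representation ℂ P V), finrank ℂ V = n → ¬ p ∣ n →
    ∃ v : V, v ≠ 0 ∧ ∀ x y : P, ρ ⁅x, y⁆ v = v := by
  intro n
  induction n using Nat.strong_induction_on with
  | _ n ih =>
  intro V _ _ _ ρ hn hpn
  classical
  -- the normal subgroup of scalars
  let Z : Subgroup P :=
    { carrier := {g | ∃ c : ℂ, ∀ v : V, ρ g v = c • v}
      mul_mem' := by
        rintro a b ⟨c, hc⟩ ⟨d, hd⟩
        refine ⟨c * d, fun v => ?_⟩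
        rw [map_mul, Module.End.mul_apply, hd, map_smul, hc, smul_smul, mul_comm]
      one_mem' := ⟨1, fun v => by rw [map_one, Module.End.one_apply, one_smul]⟩
      inv_mem' := by
        rintro a ⟨c, hc⟩
        refine ⟨c⁻¹, fun v => ?_⟩
        have h1 : ρ a (ρ a⁻¹ v) = v := by
          rw [← Module.End.mul_apply, ← map_mul, mul_inv_cancel, map_one, Module.End.one_apply]
        rw [hc] at h1
        by_cases h0 : c = 0
        · rw [h0, zero_smul] at h1
          rw [← h1, map_zero, smul_zero]
        · calc ρ a⁻¹ v = c⁻¹ • (c • ρ a⁻¹ v) := by rw [smul_smul, inv_mul_cancel₀ h0, one_smul]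
            _ = c⁻¹ • v := by rw [h1] }
  have hZn : Z.Normal := by
    refine ⟨?_⟩
    rintro a ⟨c, hc⟩ g
    refine ⟨c, fun v => ?_⟩
    rw [map_mul, map_mul, Module.End.mul_apply, Module.End.mul_apply, hc, map_smul,
      ← Module.End.mul_apply, ← map_mul, mul_inv_cancel, map_one, Module.End.one_apply]
  have hn0 : n ≠ 0 := fun h => hpn (h ▸ dvd_zero p)
  have hVnt : Nontrivial V := by
    apply Module.nontrivial_of_finrank_pos (R := ℂ)
    omega
  obtain ⟨v0, hv0⟩ := exists_ne (0 : V)
  by_cases hZ : Z = ⊤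
  · refine ⟨v0, hv0, fun x y => ?_⟩
    obtain ⟨c, hc⟩ : x ∈ Z := hZ ▸ Subgroup.mem_top x
    obtain ⟨d, hd⟩ : y ∈ Z := hZ ▸ Subgroup.mem_top y
    have h1 : ∀ v : V, ρ (x * y) v = ρ (y * x) v := by
      intro v
      rw [map_mul, map_mul, Module.End.mul_apply, Module.End.mul_apply, hd, hc, hc, hd, smul_comm]
    have h2 : ⁅x, y⁆ = x * y * (x⁻¹ * y⁻¹) := by rw [commutatorElement_def]; group
    rw [h2, map_mul, Module.End.mul_apply, h1, ← Module.End.mul_apply, ← map_mul]
    have : y * x * (x⁻¹ * y⁻¹) = 1 := by group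
    rw [this, map_one, Module.End.one_apply]
  · -- a central element modulo scalars
    have hQ : Nontrivial (P ⧸ Z) := by
      rw [← not_subsingleton_iff_nontrivial]
      intro hs
      apply hZ
      rw [eq_top_iff]
      intro x _
      rw [← QuotientGroup.eq_one_iff]
      exact Subsingleton.elim _ _
    have hQp : IsPGroup p (P ⧸ Z) := hP.to_quotient Z
    have hcn := hQp.center_nontrivial
    obtain ⟨⟨xq, hxc⟩, hxne⟩ := exists_ne (1 : Subgroup.center (P ⧸ Z))
    obtain ⟨x, rfl⟩ := QuotientGroup.mk_surjective xq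
    have hxZ : x ∉ Z := by
      intro h
      apply hxne
      apply Subtype.ext
      exact (QuotientGroup.eq_one_iff x).mpr h
    have hxy : ∀ y : P, ⁅x, y⁆ ∈ Z := by
      intro y
      rw [← QuotientGroup.eq_one_iff, commutatorElement_def]
      have := (Subgroup.mem_center_iff.mp hxc) (y : P ⧸ Z)
      rw [QuotientGroup.mk_mul, QuotientGroup.mk_mul, QuotientGroup.mk_mul, ← this,
        QuotientGroup.mk_inv, QuotientGroup.mk_inv]
      group
    -- x commutes with everything on V
    have hcom : ∀ y : P, ∀ v : V, ρ (x * y) v = ρ (y * x) v := by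
      intro y v
      obtain ⟨c, hc⟩ := hxy y
      obtain ⟨k, hk⟩ := hP ⁅x, y⁆
      have h1 : ∀ u : V, ρ (x * y) u = c • ρ (y * x) u := by
        intro u
        rw [← hc, ← Module.End.mul_apply, ← map_mul]
        congr 2
        rw [commutatorElement_def]
        group
      have hck : c ^ p ^ k = 1 := by
        have h2 : ∀ j : ℕ, ρ (⁅x, y⁆ ^ j) v0 = c ^ j • v0 := by
          intro j
          induction j with
          | zero => simp
          | succ j ihj => rw [pow_succ, map_mul, Module.End.mul_apply, hc, map_smul, ihj, smul_smul,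
              pow_succ, mul_comm]
        have h3 := h2 (p ^ k)
        rw [hk, map_one, Module.End.one_apply] at h3
        have h4 : (1 - c ^ p ^ k) • v0 = 0 := by rw [sub_smul, one_smul, ← h3, sub_self]
        rcases smul_eq_zero.mp h4 with h5 | h5
        · exact (sub_eq_zero.mp h5).symm
        · exact absurd h5 hv0
      have hone : c = 1 := by
        apply scalar_eq_one ρ ⊤ p _ x y (fun _ _ => Submodule.mem_top)
          (fun _ _ => Submodule.mem_top) c (fun u _ => h1 u) k hck
        rw [finrank_top, hn]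
        exact hpn
      rw [h1, hone, one_smul]
    -- decompose under the cyclic group generated by x
    let N : Subgroup P := Subgroup.zpowers x
    have hN : ∀ a ∈ N, ∀ b ∈ N, a * b = b * a := by
      intro a ha b hb
      obtain ⟨i, rfl⟩ := Subgroup.mem_zpowers_iff.mp ha
      obtain ⟨j, rfl⟩ := Subgroup.mem_zpowers_iff.mp hb
      rw [← zpow_add, ← zpow_add, add_comm]
    have : Fintype (N →* ℂˣ) := Fintype.ofFinite _
    have hsum := sum_finrank_wt ρ N hN
    obtain ⟨lam, hlam⟩ : ∃ lam : N →* ℂˣ, ¬ p ∣ finrank ℂ (wt ρ N lam) := by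
      by_contra hcon
      push Not at hcon
      apply hpn
      rw [← hn, ← hsum]
      exact Finset.dvd_sum fun lam _ => hcon lam
    -- every power of x commutes with everything
    have hcomz : ∀ a ∈ N, ∀ y : P, ∀ v : V, ρ (a * y) v = ρ (y * a) v := by
      intro a ha y v
      obtain ⟨i, rfl⟩ := Subgroup.mem_zpowers_iff.mp ha
      have hx' : Commute (ρ x) (ρ y) := by
        ext u
        have := hcom y u
        rwa [map_mul, map_mul] at this
      let f : P →* (Module.End ℂ V)ˣ := MonoidHom.toHomUnits ρ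
      have hf : ∀ g : P, ((f g : (Module.End ℂ V)ˣ) : Module.End ℂ V) = ρ g := fun g => rfl
      have hc2 : Commute (f x) (f y) := Units.ext (by
        rw [Units.val_mul, Units.val_mul, hf, hf]; exact hx')
      have hc3 : Commute ((f x) ^ i) (f y) := hc2.zpow_left i
      have hc4 : f (x ^ i * y) = f (y * x ^ i) := by
        rw [map_mul, map_mul, map_zpow]
        exact hc3
      exact congrArg (fun u : (Module.End ℂ V)ˣ => (u : Module.End ℂ V) v) hc4
    have hstab : ∀ g : P, ∀ v ∈ wt ρ N lam, ρ g v ∈ wt ρ N lam := by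
      intro g v hv a
      rw [← Module.End.mul_apply, ← map_mul, hcomz a a.2 g v, map_mul, Module.End.mul_apply, hv a,
        map_smul]
    have hlt : finrank ℂ (wt ρ N lam) < n := by
      rw [← hn]
      apply Submodule.finrank_lt
      intro htop
      apply hxZ
      refine ⟨((lam ⟨x, Subgroup.mem_zpowers x⟩ : ℂˣ) : ℂ), fun v => ?_⟩
      have hv : v ∈ wt ρ N lam := htop ▸ Submodule.mem_top
      exact hv ⟨x, Subgroup.mem_zpowers x⟩
    obtain ⟨w, hw0, hw⟩ := ih _ hlt (wt ρ N lam) (restr ρ (wt ρ N lam) hstab) rfl hlam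
    refine ⟨w, fun h => hw0 (Subtype.ext h), fun x y => ?_⟩
    exact congrArg Subtype.val (hw x y)

/-- If `P` is a normal `p`-subgroup and the degree of `χ` is prime to `p` then `⁅P, P⁆` acts
trivially. -/
theorem Irr.pgroup_trivial {G : Type} [Group G] [Finite G] (χ : Irr G) (p : ℕ) [Fact p.Prime]
    (P : Subgroup G) [P.Normal] (hP : IsPGroup p P) (hV : ¬ p ∣ χ.degree) :
    ∀ d ∈ ⁅P, P⁆, ∀ w : χ.V, χ.ρ d w = w := by
  obtain ⟨v, hv0, hv⟩ := pgroup_fixed_aux p hP (finrank ℂ χ.V) χ.V (χ.ρ.comp P.subtype) rfl hV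
  apply χ.trivial_of_fixed ⁅P, P⁆ v hv0
  let K : Subgroup G :=
    { carrier := {g | χ.ρ g v = v}
      mul_mem' := by
        intro a b ha hb
        show χ.ρ (a * b) v = v
        rw [map_mul, Module.End.mul_apply, hb, ha]
      one_mem' := by
        show χ.ρ 1 v = v
        rw [map_one, Module.End.one_apply]
      inv_mem' := by
        intro a ha
        show χ.ρ a⁻¹ v = v
        have h1 : χ.ρ a v = v := ha
        calc χ.ρ a⁻¹ v = χ.ρ a⁻¹ (χ.ρ a v) := by rw [h1]
          _ = v := by
            rw [← Module.End.mul_apply, ← map_mul, inv_mul_cancel, map_one, Module.End.one_apply] }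
  have hK : ⁅P, P⁆ ≤ K := by
    rw [Subgroup.commutator_le]
    intro g hg h hh
    exact hv ⟨g, hg⟩ ⟨h, hh⟩
  intro d hd
  exact hK hd

end Pool.Agent.H76.TC
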