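import Pool.Agent.H76.TC.Wt

/-!
# [H76 TC Pw] A `p`-group fixes a weight whose multiplicity is prime to `p`

If `N` is a finite abelian normal subgroup of `G`, `P` a `p`-subgroup and the dimension of `V` is
prime to `p`, then some `P`-invariant weight of `N` has a weight space of dimension prime to `p`.
-/

set_option autoImplicit false

namespace Pool.Agent.H76.TC

open Module

section act

variable {G : Type} [Group G] {V : Type} [AddCommGroup V] [Module ℂ V]

/-- conjugate of a weight -/
noncomputable def conjW (N : Subgroup G) [N.Normal] (g : G) (lam : N →* ℂˣ) : N →* ℂˣ :=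
  lam.comp (MulAut.conjNormal g⁻¹ : N ≃* N).toMonoidHom

theorem conjW_apply (N : Subgroup G) [N.Normal] (g : G) (lam : N →* ℂˣ) (n : N) :
    conjW N g lam n = lam (MulAut.conjNormal g⁻¹ n) := rfl

theorem conjW_one (N : Subgroup G) [N.Normal] (lam : N →* ℂˣ) : conjW N 1 lam = lam := by
  ext n
  rw [conjW_apply]
  simp

theorem conjW_mul (N : Subgroup G) [N.Normal] (g h : G) (lam : N →* ℂˣ) :
    conjW N (g * h) lam = conjW N g (conjW N h lam) := by
  ext n
  rw [conjW_apply, conjW_apply, conjW_apply, mul_inv_rev, map_mul]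
  rfl

/-- `ρ g` maps the weight space of `lam` into the weight space of the conjugate weight -/
theorem map_wt (ρ : Representation ℂ G V) (N : Subgroup G) [N.Normal] (g : G) (lam : N →* ℂˣ)
    {v : V} (hv : v ∈ wt ρ N lam) : ρ g v ∈ wt ρ N (conjW N g lam) := by
  rw [mem_wt] at hv ⊢
  intro n
  have h1 : ρ (n : G) (ρ g v) = ρ g (ρ ((MulAut.conjNormal g⁻¹ n : N) : G) v) := by
    rw [← Module.End.mul_apply, ← Module.End.mul_apply, ← map_mul, ← map_mul,
      MulAut.conjNormal_apply]
    congr 2
    group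
  rw [h1, hv, map_smul, conjW_apply]

theorem finrank_wt_le [FiniteDimensional ℂ V] (ρ : Representation ℂ G V) (N : Subgroup G)
    [N.Normal] (g : G) (lam : N →* ℂˣ) :
    finrank ℂ (wt ρ N lam) ≤ finrank ℂ (wt ρ N (conjW N g lam)) := by
  have hinj : Function.Injective (ρ g) := by
    intro a b hab
    have : ρ g⁻¹ (ρ g a) = ρ g⁻¹ (ρ g b) := by rw [hab]
    rwa [← Module.End.mul_apply, ← Module.End.mul_apply, ← map_mul, inv_mul_cancel, map_one,
      Module.End.one_apply, Module.End.one_apply] at this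
  have h1 : (wt ρ N lam).map (ρ g) ≤ wt ρ N (conjW N g lam) := by
    rintro _ ⟨v, hv, rfl⟩
    exact map_wt ρ N g lam hv
  have h2 := Submodule.finrank_mono h1
  rwa [← (Submodule.equivMapOfInjective (ρ g) hinj (wt ρ N lam)).finrank_eq] at h2

theorem finrank_wt_conjW [FiniteDimensional ℂ V] (ρ : Representation ℂ G V) (N : Subgroup G)
    [N.Normal] (g : G) (lam : N →* ℂˣ) :
    finrank ℂ (wt ρ N (conjW N g lam)) = finrank ℂ (wt ρ N lam) := by
  apply le_antisymm _ (finrank_wt_le ρ N g lam)
  have h := finrank_wt_le ρ N g⁻¹ (conjW N g lam)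
  rwa [← conjW_mul, inv_mul_cancel, conjW_one] at h

end act

/-- counting modulo `p` with a weight function invariant under a `p`-group -/
theorem exists_fixed_of_sum {p : ℕ} [hp : Fact p.Prime] {P X : Type} [Group P] [MulAction P X]
    [Fintype X] (hP : IsPGroup p P) (f : X → ℕ) (hf : ∀ (g : P) (x : X), f (g • x) = f x)
    (h : ¬ p ∣ ∑ x, f x) : ∃ x : X, ¬ p ∣ f x ∧ ∀ g : P, g • x = x := by
  classical
  by_contra hcon
  push Not at hcon
  apply h
  -- fibres
  have h1 : ∑ x, f x = ∑ k ∈ Finset.univ.image f, k * Nat.card {x : X // f x = k} := by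
    rw [← Finset.sum_fiberwise_of_maps_to (s := Finset.univ) (t := Finset.univ.image f) (g := f)
      (fun x hx => Finset.mem_image_of_mem f hx)]
    apply Finset.sum_congr rfl
    intro k _
    rw [Finset.sum_congr rfl (g := fun _ => k)
      (fun x hx => (Finset.mem_filter.mp hx).2), Finset.sum_const, smul_eq_mul, mul_comm]
    congr 1
    rw [Nat.card_eq_fintype_card, Fintype.card_subtype]
  rw [h1]
  apply Finset.dvd_sum
  intro k _
  by_cases hk : p ∣ k
  · exact Dvd.dvd.mul_right hk _
  · apply Dvd.dvd.mul_left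
    by_contra hnd
    let _ : MulAction P {x : X // f x = k} :=
      { smul := fun g x => ⟨g • x.1, by rw [hf]; exact x.2⟩
        one_smul := fun x => Subtype.ext (one_smul P x.1)
        mul_smul := fun a b x => Subtype.ext (mul_smul a b x.1) }
    obtain ⟨x, hx⟩ := hP.nonempty_fixed_point_of_prime_not_dvd_card {x : X // f x = k} hnd
    obtain ⟨g, hg⟩ := hcon x.1 (by rw [x.2]; exact hk)
    apply hg
    exact congrArg Subtype.val (hx g)

/-- A `p`-subgroup fixes a weight whose weight space has dimension prime to `p`. -/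
theorem exists_fixed_weight {G : Type} [Group G] {V : Type} [AddCommGroup V] [Module ℂ V]
    [FiniteDimensional ℂ V] (ρ : Representation ℂ G V) (p : ℕ) [Fact p.Prime]
    (N : Subgroup G) [N.Normal] [Finite N] (hN : ∀ x ∈ N, ∀ y ∈ N, x * y = y * x)
    (P : Subgroup G) (hP : IsPGroup p P) (hV : ¬ p ∣ finrank ℂ V) :
    ∃ lam : N →* ℂˣ, ¬ p ∣ finrank ℂ (wt ρ N lam) ∧ ∀ x ∈ P, conjW N x lam = lam := by
  classical
  have : Fintype (N →* ℂˣ) := Fintype.ofFinite _
  let _ : MulAction P (N →* ℂˣ) :=
    { smul := fun x lam => conjW N (x : G) lam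
      one_smul := fun lam => conjW_one N lam
      mul_smul := fun a b lam => conjW_mul N a b lam }
  obtain ⟨lam, h1, h2⟩ := exists_fixed_of_sum (P := P) (X := N →* ℂˣ) hP
    (fun lam => finrank ℂ (wt ρ N lam)) (fun g lam => finrank_wt_conjW ρ N g lam)
    (by rw [sum_finrank_wt ρ N hN]; exact hV)
  exact ⟨lam, h1, fun x hx => h2 ⟨x, hx⟩⟩

end Pool.Agent.H76.TC
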