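import Pool.Agent.H76.TC.Lam
import Pool.Agent.H76.TC.Ito
import Pool.Agent.H76.TC.Grp

/-!
# [H76 TC Step] One character for each abelian layer, one for the nonabelian normal Sylow subgroups
-/

set_option autoImplicit false

namespace Pool.Agent.H76.TC

open Module
open scoped commutatorElement

section

variable {G : Type} [Group G] [Finite G]

/-- for primes not dividing the order the Sylow subgroup is trivial -/
theorem nas_of_not_dvd (M : Subgroup G) [hM : M.Normal] {p : ℕ} [hp : Fact p.Prime]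
    (h : ¬ p ∣ Nat.card G) : NAS M p := by
  obtain ⟨P⟩ : Nonempty (Sylow p G) := inferInstance
  have hP : (P : Subgroup G) = ⊥ := by
    obtain ⟨k, hk⟩ := (IsPGroup.iff_card).mp P.isPGroup'
    have h1 : p ^ k ∣ Nat.card G := hk ▸ Subgroup.card_subgroup_dvd_card (P : Subgroup G)
    have h2 : k = 0 := by
      by_contra hk0
      exact h ((dvd_pow_self p hk0).trans h1)
    rw [h2, pow_zero] at hk
    exact Subgroup.card_eq_one.mp hk
  refine ⟨P, ?_, ?_⟩
  · rw [hP, bot_sup_eq]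
    exact hM
  · rw [hP, Subgroup.commutator_bot_left]
    exact bot_le

/-- One character covers all primes `p` for which the Sylow `p`-subgroups are normal and abelian
modulo the abelian normal subgroup `N` but not in `G`. -/
theorem stepA (N : Subgroup G) [hNn : N.Normal] (hN : ∀ x ∈ N, ∀ y ∈ N, x * y = y * x) :
    ∃ χ : Irr G, ∀ p : ℕ, p.Prime → NAS N p → ¬ NAS (⊥ : Subgroup G) p → p ∣ χ.degree := by
  classical
  let Pi : Finset ℕ := (Nat.card G).primeFactors.filter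
    (fun p => NAS N p ∧ ¬ NAS (⊥ : Subgroup G) p)
  have hPi : ∀ p ∈ Pi, p.Prime ∧ NAS N p ∧ ¬ NAS (⊥ : Subgroup G) p := by
    intro p hp
    have h := Finset.mem_filter.mp hp
    exact ⟨Nat.prime_of_mem_primeFactors h.1, h.2⟩
  -- choose Sylow subgroups
  have hex : ∀ p : ℕ, ∃ Q : Subgroup G, p ∈ Pi → ∃ P : Sylow p G, Q = P ∧
      ((P : Subgroup G) ⊔ N).Normal ∧ ⁅(P : Subgroup G), (P : Subgroup G)⁆ ≤ N := by
    intro p
    by_cases hp : p ∈ Pi
    · obtain ⟨P, h1, h2⟩ := (hPi p hp).2.1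
      exact ⟨P, fun _ => ⟨P, rfl, h1, h2⟩⟩
    · exact ⟨⊥, fun h => absurd h hp⟩
  choose Q hQ using hex
  let E : ℕ → Subgroup G := fun p => ⁅Q p ⊔ N, Q p ⊔ N⁆
  have hEN : ∀ p ∈ Pi, E p ≤ N := by
    intro p hp
    obtain ⟨P, hQP, h1, h2⟩ := hQ p hp
    show ⁅Q p ⊔ N, Q p ⊔ N⁆ ≤ N
    rw [hQP, Subgroup.commutator_le]
    intro g hg h hh
    obtain ⟨x, hx, a, ha, rfl⟩ := Subgroup.mem_sup_of_normal_right.mp hg
    obtain ⟨y, hy, b, hb, rfl⟩ := Subgroup.mem_sup_of_normal_right.mp hh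
    rw [← QuotientGroup.eq_one_iff]
    have ea : ((a : G) : G ⧸ N) = 1 := (QuotientGroup.eq_one_iff a).mpr ha
    have eb : ((b : G) : G ⧸ N) = 1 := (QuotientGroup.eq_one_iff b).mpr hb
    have exy : ((⁅x, y⁆ : G) : G ⧸ N) = 1 :=
      (QuotientGroup.eq_one_iff _).mpr (h2 (Subgroup.commutator_mem_commutator hx hy))
    rw [commutatorElement_def] at exy ⊢
    simp only [QuotientGroup.mk_mul, QuotientGroup.mk_inv, ea, eb, mul_one] at exy ⊢
    exact exy
  have hEnorm : ∀ p ∈ Pi, (E p).Normal := by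
    intro p hp
    obtain ⟨P, hQP, h1, h2⟩ := hQ p hp
    have : (Q p ⊔ N).Normal := by rw [hQP]; exact h1
    show (⁅Q p ⊔ N, Q p ⊔ N⁆ : Subgroup G).Normal
    infer_instance
  -- the two types
  let TII : ℕ → Prop := fun p => ∃ x ∈ Q p, ∃ a ∈ N, ∃ m : ℕ, Nat.Coprime p m ∧ a ^ m = 1 ∧
    ⁅x, a⁆ ≠ 1
  let T : Finset ℕ := Pi.filter TII
  let S : Finset ℕ := Pi.filter (fun p => ¬ TII p)
  have hSI : ∀ p ∈ S, ∃ P : Sylow p G, Q p = P ∧ ((P : Subgroup G) ⊔ N).Normal ∧
      (∀ x ∈ (P : Subgroup G), ∀ a ∈ N, ∀ m : ℕ, Nat.Coprime p m → a ^ m = 1 → ⁅x, a⁆ = 1) := by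
    intro p hp
    have h := Finset.mem_filter.mp hp
    obtain ⟨P, hQP, h1, h2⟩ := hQ p h.1
    refine ⟨P, hQP, h1, ?_⟩
    intro x hx a ha m hm ham
    by_contra hne
    exact h.2 ⟨x, by rw [hQP]; exact hx, a, ha, m, hm, ham, hne⟩
  have hST : ∀ p ∈ S ∪ T, p ∈ Pi := by
    intro p hp
    rcases Finset.mem_union.mp hp with h | h
    · exact (Finset.mem_filter.mp h).1
    · exact (Finset.mem_filter.mp h).1
  obtain ⟨lam, hlam⟩ := exists_lam N hN S T
    (fun p hp => (hPi p (hST p (Finset.mem_union_left _ hp))).1)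
    (fun p hp => (hPi p (hST p (Finset.mem_union_right _ hp))).1) E Q
    (fun p hp => hEnorm p (hST p hp))
    (fun p hp => hEN p (hST p (Finset.mem_union_left _ hp)))
    (by
      intro p hp
      have : Fact p.Prime := ⟨(hPi p (hST p (Finset.mem_union_left _ hp))).1⟩
      obtain ⟨P, hQP, h1, hI⟩ := hSI p hp
      have h2 : E p ≤ (P : Subgroup G) := by
        show ⁅Q p ⊔ N, Q p ⊔ N⁆ ≤ (P : Subgroup G)
        rw [hQP]
        exact comm_le_of_typeI N hN P hI
      exact P.isPGroup'.to_le h2)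
    (by
      intro p hp hbot
      have : Fact p.Prime := ⟨(hPi p (hST p (Finset.mem_union_left _ hp))).1⟩
      obtain ⟨P, hQP, h1, hI⟩ := hSI p hp
      have h2 : ⁅(P : Subgroup G) ⊔ N, (P : Subgroup G) ⊔ N⁆ = ⊥ := by
        rw [← hQP]
        exact hbot
      apply (hPi p (hST p (Finset.mem_union_left _ hp))).2.2
      refine ⟨P, ?_, ?_⟩
      · rw [sup_bot_eq]
        exact normal_of_comm P N h1 h2
      · rw [← h2]
        exact Subgroup.commutator_mono le_sup_left le_sup_left)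
    (by
      intro p hp
      obtain ⟨P, hQP, -, -⟩ := hQ p (hST p (Finset.mem_union_right _ hp))
      rw [hQP]
      exact P.isPGroup')
    (by
      intro p _ x hx a ha
      exact Subgroup.commutator_mem_commutator (Subgroup.mem_sup_left hx)
        (Subgroup.mem_sup_right ha))
    (by
      intro p hp
      exact (Finset.mem_filter.mp hp).2)
  obtain ⟨χ, v, hv, hv0⟩ := exists_irr_over N lam
  refine ⟨χ, fun p hp h1 h2 => ?_⟩
  have : Fact p.Prime := ⟨hp⟩
  by_cases hd : p ∣ Nat.card G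
  · have hpPi : p ∈ Pi := by
      refine Finset.mem_filter.mpr ⟨Nat.mem_primeFactors.mpr ⟨hp, hd, Nat.card_pos.ne'⟩, h1, h2⟩
    obtain ⟨n, hnE, hn1⟩ := hlam p (by
      by_cases hT : TII p
      · exact Finset.mem_union_right _ (Finset.mem_filter.mpr ⟨hpPi, hT⟩)
      · exact Finset.mem_union_left _ (Finset.mem_filter.mpr ⟨hpPi, hT⟩))
    by_contra hnd
    obtain ⟨P, hQP, h3, h4⟩ := hQ p hpPi
    have h5 := χ.comm_trivial' p N hN P P.isPGroup' h3 h4 hnd
    apply hn1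
    have h6 : (n : G) ∈ ⁅(P : Subgroup G) ⊔ N, (P : Subgroup G) ⊔ N⁆ := by
      rw [← hQP]
      exact hnE
    exact lam_trivial χ N lam v hv hv0 n n.2 (h5 n h6)
  · exact absurd (nas_of_not_dvd ⊥ hd) h2

/-- One character covers all primes `p` for which the Sylow `p`-subgroups are normal
modulo the abelian normal subgroup `N` but not in `G`. -/
theorem stepB (N : Subgroup G) [hNn : N.Normal] (hN : ∀ x ∈ N, ∀ y ∈ N, x * y = y * x) :
    ∃ χ : Irr G, ∀ p : ℕ, p.Prime → NS N p → ¬ NS (⊥ : Subgroup G) p → p ∣ χ.degree := by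
  classical
  let Pi : Finset ℕ := (Nat.card G).primeFactors.filter
    (fun p => NS N p ∧ ¬ NS (⊥ : Subgroup G) p)
  have hPi : ∀ p ∈ Pi, p.Prime ∧ NS N p ∧ ¬ NS (⊥ : Subgroup G) p := by
    intro p hp
    have h := Finset.mem_filter.mp hp
    exact ⟨Nat.prime_of_mem_primeFactors h.1, h.2⟩
  have hex : ∀ p : ℕ, ∃ Q : Subgroup G, p ∈ Pi → ∃ P : Sylow p G, Q = P ∧
      ((P : Subgroup G) ⊔ N).Normal := by
    intro p
    by_cases hp : p ∈ Pi
    · obtain ⟨P, h1⟩ := (hPi p hp).2.1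
      exact ⟨P, fun _ => ⟨P, rfl, h1⟩⟩
    · exact ⟨⊥, fun h => absurd h hp⟩
  choose Q hQ using hex
  let E : ℕ → Subgroup G := fun p => ⁅Q p ⊔ N, N⁆
  have hEnorm : ∀ p ∈ Pi, (E p).Normal := by
    intro p hp
    obtain ⟨P, hQP, h1⟩ := hQ p hp
    have : (Q p ⊔ N).Normal := by rw [hQP]; exact h1
    show (⁅Q p ⊔ N, N⁆ : Subgroup G).Normal
    infer_instance
  obtain ⟨lam, hlam⟩ := exists_lam N hN ∅ Pi
    (fun p hp => absurd hp (Finset.notMem_empty p))
    (fun p hp => (hPi p hp).1) E Q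
    (fun p hp => hEnorm p (by simpa using hp))
    (fun p hp => absurd hp (Finset.notMem_empty p))
    (fun p hp => absurd hp (Finset.notMem_empty p))
    (fun p hp => absurd hp (Finset.notMem_empty p))
    (by
      intro p hp
      obtain ⟨P, hQP, -⟩ := hQ p hp
      rw [hQP]
      exact P.isPGroup')
    (by
      intro p _ x hx a ha
      exact Subgroup.commutator_mem_commutator (Subgroup.mem_sup_left hx) ha)
    (by
      intro p hp
      have : Fact p.Prime := ⟨(hPi p hp).1⟩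
      obtain ⟨P, hQP, h1⟩ := hQ p hp
      by_contra hcon
      push Not at hcon
      apply (hPi p hp).2.2
      refine ⟨P, ?_⟩
      rw [sup_bot_eq]
      apply normal_of_typeI N hN P _ h1
      intro x hx a ha m hm ham
      exact hcon x (by rw [hQP]; exact hx) a ha m hm ham)
  obtain ⟨χ, v, hv, hv0⟩ := exists_irr_over N lam
  refine ⟨χ, fun p hp h1 h2 => ?_⟩
  have : Fact p.Prime := ⟨hp⟩
  by_cases hd : p ∣ Nat.card G
  · have hpPi : p ∈ Pi := by
      refine Finset.mem_filter.mpr ⟨Nat.mem_primeFactors.mpr ⟨hp, hd, Nat.card_pos.ne'⟩, h1, h2⟩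
    obtain ⟨n, hnE, hn1⟩ := hlam p (by simpa using hpPi)
    by_contra hnd
    obtain ⟨P, hQP, h3⟩ := hQ p hpPi
    have h5 := χ.comm_trivial p N hN P P.isPGroup' h3 hnd
    apply hn1
    have h6 : (n : G) ∈ ⁅(P : Subgroup G) ⊔ N, N⁆ := by
      rw [← hQP]
      exact hnE
    exact lam_trivial χ N lam v hv hv0 n n.2 (h5 n h6)
  · exact absurd (nas_of_not_dvd ⊥ hd).toNS h2

/-- One character covers all primes `p` for which `G` has a normal nonabelian Sylow
`p`-subgroup. -/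
theorem stepD (G : Type) [Group G] [Finite G] :
    ∃ χ : Irr G, ∀ p : ℕ, p.Prime → NS (⊥ : Subgroup G) p → ¬ NAS (⊥ : Subgroup G) p →
      p ∣ χ.degree := by
  classical
  let Pi : Finset ℕ := (Nat.card G).primeFactors.filter
    (fun p => NS (⊥ : Subgroup G) p ∧ ¬ NAS (⊥ : Subgroup G) p)
  have hPi : ∀ p ∈ Pi, p.Prime ∧ NS (⊥ : Subgroup G) p ∧ ¬ NAS (⊥ : Subgroup G) p := by
    intro p hp
    have h := Finset.mem_filter.mp hp
    exact ⟨Nat.prime_of_mem_primeFactors h.1, h.2⟩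
  have hex : ∀ p : ℕ, ∃ z : G, p ∈ Pi → ∃ P : Sylow p G, (P : Subgroup G).Normal ∧
      z ∈ ⁅(P : Subgroup G), (P : Subgroup G)⁆ ∧ z ≠ 1 := by
    intro p
    by_cases hp : p ∈ Pi
    · obtain ⟨P, h1⟩ := (hPi p hp).2.1
      rw [sup_bot_eq] at h1
      have h2 : ⁅(P : Subgroup G), (P : Subgroup G)⁆ ≠ ⊥ := by
        intro h
        apply (hPi p hp).2.2
        refine ⟨P, ?_, h.le⟩
        rw [sup_bot_eq]
        exact h1
      obtain ⟨z, hz⟩ := Subgroup.ne_bot_iff_exists_ne_one.mp h2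
      exact ⟨z, fun _ => ⟨P, h1, z.2, fun h => hz (Subtype.ext h)⟩⟩
    · exact ⟨1, fun h => absurd h hp⟩
  choose z hz using hex
  have hzP : ∀ p ∈ Pi, ∃ P : Sylow p G, (P : Subgroup G).Normal ∧ z p ∈ (P : Subgroup G) := by
    intro p hp
    obtain ⟨P, h1, h2, _⟩ := hz p hp
    have h3 : ⁅(P : Subgroup G), (P : Subgroup G)⁆ ≤ (P : Subgroup G) := by
      have := h1
      exact Subgroup.commutator_le_left _ _
    exact ⟨P, h1, h3 h2⟩
  let N : Subgroup G := Subgroup.closure (z '' (Pi : Set ℕ))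
  have hNc : ∀ x ∈ N, ∀ y ∈ N, x * y = y * x := by
    have hgen : ∀ x ∈ z '' (Pi : Set ℕ), ∀ y ∈ z '' (Pi : Set ℕ), x * y = y * x := by
      rintro _ ⟨p, hp, rfl⟩ _ ⟨q, hq, rfl⟩
      by_cases hpq : p = q
      · rw [hpq]
      · obtain ⟨P, hP1, hP2⟩ := hzP p hp
        obtain ⟨P', hP1', hP2'⟩ := hzP q hq
        have hp' : Fact p.Prime := ⟨(hPi p hp).1⟩
        have hq' : Fact q.Prime := ⟨(hPi q hq).1⟩
        exact Subgroup.commute_of_normal_of_disjoint _ _ hP1 hP1'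
          (IsPGroup.disjoint_of_ne p q hpq _ _ P.isPGroup' P'.isPGroup') _ _ hP2 hP2'
    have hm := Subgroup.isMulCommutative_closure hgen
    intro x hx y hy
    have := hm.is_comm.comm (⟨x, hx⟩ : N) ⟨y, hy⟩
    exact congrArg Subtype.val this
  let E : ℕ → Subgroup G := fun p => Subgroup.zpowers (z p)
  obtain ⟨lam, hlam⟩ := exists_typeI N hNc Pi (fun p hp => (hPi p hp).1) E
    (by
      intro p hp
      rw [Subgroup.zpowers_le]
      exact Subgroup.subset_closure ⟨p, hp, rfl⟩)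
    (by
      intro p hp
      obtain ⟨P, h1, h2⟩ := hzP p hp
      have : E p ≤ (P : Subgroup G) := by
        rw [Subgroup.zpowers_le]
        exact h2
      exact P.isPGroup'.to_le this)
    (by
      intro p hp hbot
      obtain ⟨P, _, _, h3⟩ := hz p hp
      exact h3 (Subgroup.zpowers_eq_bot.mp hbot))
  obtain ⟨χ, v, hv, hv0⟩ := exists_irr_over N lam
  refine ⟨χ, fun p hp h1 h2 => ?_⟩
  have : Fact p.Prime := ⟨hp⟩
  by_cases hd : p ∣ Nat.card G
  · have hpPi : p ∈ Pi := by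
      refine Finset.mem_filter.mpr ⟨Nat.mem_primeFactors.mpr ⟨hp, hd, Nat.card_pos.ne'⟩, h1, h2⟩
    obtain ⟨n, hnE, hn1⟩ := hlam p hpPi
    by_contra hnd
    obtain ⟨P, h3, h4, h5⟩ := hz p hpPi
    have h6 := χ.pgroup_trivial p (P : Subgroup G) P.isPGroup' hnd
    apply hn1
    have h7 : (n : G) ∈ ⁅(P : Subgroup G), (P : Subgroup G)⁆ := by
      have h8 : E p ≤ ⁅(P : Subgroup G), (P : Subgroup G)⁆ := by
        rw [Subgroup.zpowers_le]
        exact h4
      exact h8 hnE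
    exact lam_trivial χ N lam v hv hv0 n n.2 (h6 n h7)
  · exact absurd (nas_of_not_dvd ⊥ hd) h2

end

end Pool.Agent.H76.TC
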