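import Pool.Agent.H76.TC.Defs

/-!
# [H76 TC Wt] Weight spaces of a finite abelian subgroup

For a representation `ρ` of `G` and a subgroup `N`, `wt ρ N lam` is the space of vectors on which
`N` acts by the homomorphism `lam : N →* ℂˣ`. For `N` finite and abelian the dimensions of the
weight spaces add up to the dimension of the space.
-/

set_option autoImplicit false

namespace Pool.Agent.H76.TC

open Module

section wt

variable {G : Type} [Group G] {V : Type} [AddCommGroup V] [Module ℂ V]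

/-- The weight space. -/
def wt (ρ : Representation ℂ G V) (N : Subgroup G) (lam : N →* ℂˣ) : Submodule ℂ V where
  carrier := {v | ∀ n : N, ρ (n : G) v = ((lam n : ℂˣ) : ℂ) • v}
  add_mem' := by
    intro a b ha hb n
    rw [map_add, ha n, hb n, smul_add]
  zero_mem' := by
    intro n
    rw [map_zero, smul_zero]
  smul_mem' := by
    intro c a ha n
    rw [map_smul, ha n, smul_comm]

theorem mem_wt {ρ : Representation ℂ G V} {N : Subgroup G} {lam : N →* ℂˣ} {v : V} :
    v ∈ wt ρ N lam ↔ ∀ n : N, ρ (n : G) v = ((lam n : ℂˣ) : ℂ) • v := Iff.rfl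

/-- the twist of `ρ` restricted to `N` by the inverse of `lam` -/
noncomputable def twist (ρ : Representation ℂ G V) (N : Subgroup G) (lam : N →* ℂˣ) :
    Representation ℂ N V where
  toFun n := ((lam n)⁻¹ : ℂˣ).val • ρ (n : G)
  map_one' := by simp
  map_mul' a b := by
    ext v
    simp only [map_mul, Subgroup.coe_mul, mul_inv, Units.val_mul, LinearMap.smul_apply,
      Module.End.mul_apply, map_smul]
    rw [smul_smul, mul_comm]

theorem wt_eq_invariants (ρ : Representation ℂ G V) (N : Subgroup G) (lam : N →* ℂˣ) :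
    wt ρ N lam = (twist ρ N lam).invariants := by
  ext v
  rw [mem_wt, Representation.mem_invariants]
  constructor
  · intro h n
    show ((lam n)⁻¹ : ℂˣ).val • ρ (n : G) v = v
    rw [h n, smul_smul, ← Units.val_mul, inv_mul_cancel, Units.val_one, one_smul]
  · intro h n
    have h1 : ((lam n)⁻¹ : ℂˣ).val • ρ (n : G) v = v := h n
    have h2 : ((lam n : ℂˣ) : ℂ) • (((lam n)⁻¹ : ℂˣ).val • ρ (n : G) v) =
        ((lam n : ℂˣ) : ℂ) • v := by rw [h1]
    rwa [smul_smul, ← Units.val_mul, mul_inv_cancel, Units.val_one, one_smul] at h2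

variable [FiniteDimensional ℂ V]

theorem finrank_wt (ρ : Representation ℂ G V) (N : Subgroup G) [Fintype N] (lam : N →* ℂˣ) :
    (finrank ℂ (wt ρ N lam) : ℂ) =
      (Nat.card N : ℂ)⁻¹ * ∑ n : N, (((lam n)⁻¹ : ℂˣ) : ℂ) * LinearMap.trace ℂ V (ρ (n : G)) := by
  have hc : (Nat.card N : ℂ) ≠ 0 := Nat.cast_ne_zero.mpr Nat.card_pos.ne'
  have : Invertible (Nat.card N : ℂ) := invertibleOfNonzero hc
  rw [wt_eq_invariants, ← Representation.card_inv_mul_sum_char_eq_finrank]
  congr 1
  refine Finset.sum_congr rfl ?_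
  intro n _
  show LinearMap.trace ℂ V (((lam n)⁻¹ : ℂˣ).val • ρ (n : G)) = _
  rw [map_smul, smul_eq_mul]

end wt

section sum

/-- orthogonality: the sum of all characters of a finite abelian group -/
theorem sum_hom {A : Type} [CommGroup A] [Finite A] [Fintype (A →* ℂˣ)] (a : A)
    [Decidable (a = 1)] :
    ∑ lam : A →* ℂˣ, (((lam a)⁻¹ : ℂˣ) : ℂ) = if a = 1 then (Nat.card A : ℂ) else 0 := by
  split_ifs with h
  · subst h
    simp only [map_one, inv_one, Units.val_one, Finset.sum_const, nsmul_eq_mul, mul_one]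
    rw [Finset.card_univ, ← Nat.card_eq_fintype_card,
      CommGroup.card_monoidHom_of_hasEnoughRootsOfUnity]
  · obtain ⟨φ, hφ⟩ := CommGroup.exists_apply_ne_one_of_hasEnoughRootsOfUnity A ℂ h
    have h1 : ∑ lam : A →* ℂˣ, (((lam a)⁻¹ : ℂˣ) : ℂ) =
        (((φ a)⁻¹ : ℂˣ) : ℂ) * ∑ lam : A →* ℂˣ, (((lam a)⁻¹ : ℂˣ) : ℂ) := by
      rw [Finset.mul_sum]
      rw [← Equiv.sum_comp (Equiv.mulLeft φ)]
      refine Finset.sum_congr rfl ?_
      intro lam _
      simp [mul_comm]
    have h2 : (1 - (((φ a)⁻¹ : ℂˣ) : ℂ)) * ∑ lam : A →* ℂˣ, (((lam a)⁻¹ : ℂˣ) : ℂ) = 0 := by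
      rw [sub_mul, one_mul, ← h1, sub_self]
    rcases mul_eq_zero.mp h2 with h3 | h3
    · exfalso
      apply hφ
      have h4 : (((φ a)⁻¹ : ℂˣ) : ℂ) = 1 := by linear_combination -h3
      have h5 : (φ a)⁻¹ = 1 := Units.ext h4
      exact inv_eq_one.mp h5
    · exact h3

/-- The dimensions of the weight spaces of a finite abelian subgroup add up to the dimension. -/
theorem sum_finrank_wt {G : Type} [Group G] {V : Type} [AddCommGroup V] [Module ℂ V]
    [FiniteDimensional ℂ V] (ρ : Representation ℂ G V) (N : Subgroup G) [Finite N]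
    (hN : ∀ x ∈ N, ∀ y ∈ N, x * y = y * x) [Fintype (N →* ℂˣ)] :
    ∑ lam : N →* ℂˣ, finrank ℂ (wt ρ N lam) = finrank ℂ V := by
  classical
  have : Fintype N := Fintype.ofFinite N
  let _ : CommGroup N :=
    { (inferInstance : Group N) with
      mul_comm := fun a b => Subtype.ext (hN a a.2 b b.2) }
  have hc : (Nat.card N : ℂ) ≠ 0 := Nat.cast_ne_zero.mpr Nat.card_pos.ne'
  have key : ((∑ lam : N →* ℂˣ, finrank ℂ (wt ρ N lam) : ℕ) : ℂ) = (finrank ℂ V : ℂ) := by
    push_cast
    simp_rw [finrank_wt]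
    rw [← Finset.mul_sum, Finset.sum_comm]
    simp_rw [← Finset.sum_mul]
    have h1 : ∀ n : N, (∑ lam : N →* ℂˣ, (((lam n)⁻¹ : ℂˣ) : ℂ)) =
        if n = 1 then (Nat.card N : ℂ) else 0 := fun n => sum_hom n
    simp_rw [h1]
    rw [Finset.sum_eq_single (1 : N)]
    · rw [if_pos rfl]
      simp only [Subgroup.coe_one, map_one, LinearMap.trace_one]
      field_simp
    · intro n _ hn
      rw [if_neg hn, zero_mul]
    · intro h
      exact absurd (Finset.mem_univ _) h
  exact_mod_cast key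

end sum

end Pool.Agent.H76.TC
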